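import Mathlib

set_option autoImplicit false
set_option linter.unusedSectionVars false

namespace Pool.Agent.TH628.J778

open scoped BigOperators
open Finset

section conn

variable {V : Type} [Fintype V] [DecidableEq V] (G : SimpleGraph V) [DecidableRel G.Adj]

/-- supports of walks of length `m` from `v` -/
def S : ℕ → V → Finset (Finset V)
  | 0, v => {{v}}
  | m + 1, v => (G.neighborFinset v).biUnion fun w => (S m w).image (insert v)

theorem card_S {d : ℕ} (hd : ∀ v, G.degree v ≤ d) (m : ℕ) (v : V) : (S G m v).card ≤ d ^ m := by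
  induction m generalizing v with
  | zero => simp [S]
  | succ m ih =>
    rw [S]
    calc _ ≤ ∑ w ∈ G.neighborFinset v, ((S G m w).image (insert v)).card := card_biUnion_le
      _ ≤ ∑ w ∈ G.neighborFinset v, d ^ m :=
          sum_le_sum fun w _ => card_image_le.trans (ih w)
      _ = G.degree v * d ^ m := by rw [sum_const, smul_eq_mul, G.card_neighborFinset_eq_degree]
      _ ≤ d * d ^ m := Nat.mul_le_mul_right _ (hd v)
      _ = d ^ (m + 1) := by ring

theorem mem_S_zero {v : V} {A : Finset V} : A ∈ S G 0 v ↔ A = {v} := by simp [S]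

theorem mem_S_succ {m : ℕ} {v : V} {A : Finset V} :
    A ∈ S G (m + 1) v ↔ ∃ w, G.Adj v w ∧ ∃ A' ∈ S G m w, insert v A' = A := by
  simp [S, mem_biUnion]

theorem detour (m : ℕ) : ∀ (v : V) (A : Finset V), A ∈ S G m v → ∀ x ∈ A, ∀ y, G.Adj x y →
    insert y A ∈ S G (m + 2) v := by
  induction m with
  | zero =>
    intro v A hA x hx y hxy
    rw [mem_S_zero] at hA
    subst hA
    rw [mem_singleton] at hx
    subst hx
    rw [mem_S_succ]
    refine ⟨y, hxy, insert y {x}, ?_, ?_⟩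
    · rw [mem_S_succ]
      exact ⟨x, hxy.symm, {x}, by simp [S], rfl⟩
    · ext z
      simp only [mem_insert, mem_singleton]
      tauto
  | succ m ih =>
    intro v A hA x hx y hxy
    obtain ⟨w, hvw, A', hA', rfl⟩ := (mem_S_succ G).1 hA
    by_cases hxA : x ∈ A'
    · have h1 := ih w A' hA' x hxA y hxy
      rw [show m + 1 + 2 = (m + 2) + 1 by ring, mem_S_succ]
      refine ⟨w, hvw, _, h1, ?_⟩
      ext z
      simp only [mem_insert]
      tauto
    · have hxv : x = v := by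
        rw [mem_insert] at hx
        tauto
      subst hxv
      rw [show m + 1 + 2 = ((m + 1) + 1) + 1 by ring, mem_S_succ]
      refine ⟨y, hxy, insert y (insert x A'), ?_, ?_⟩
      · rw [mem_S_succ]
        exact ⟨x, hxy.symm, _, hA, rfl⟩
      · ext z
        simp only [mem_insert]
        tauto

/-- connectedness of the graph induced on `U` -/
def Conn (U : Finset V) : Prop :=
  ∀ A ⊆ U, A.Nonempty → A ≠ U → ∃ x ∈ A, ∃ y ∈ U \ A, G.Adj x y

theorem conn_grow {U : Finset V} (hU : Conn G U) {v : V} (hv : v ∈ U) (j : ℕ) :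
    j + 1 ≤ U.card → ∃ A ⊆ U, A.card = j + 1 ∧ v ∈ A ∧ A ∈ S G (2 * j) v := by
  induction j with
  | zero =>
    intro _
    exact ⟨{v}, by simpa using hv, by simp, by simp, by simp [S]⟩
  | succ j ih =>
    intro hj
    obtain ⟨A, hAU, hc, hvA, hS⟩ := ih (by omega)
    have hne : A ≠ U := by
      rintro rfl
      omega
    obtain ⟨x, hx, y, hy, hxy⟩ := hU A hAU ⟨v, hvA⟩ hne
    rw [mem_sdiff] at hy
    refine ⟨insert y A, ?_, ?_, mem_insert_of_mem hvA, ?_⟩
    · exact insert_subset hy.1 hAU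
    · rw [card_insert_of_notMem hy.2, hc]
    · exact detour G (2 * j) v A hS x hx y hxy

theorem conn_mem {U : Finset V} (hU : Conn G U) {v : V} (hv : v ∈ U) :
    U ∈ S G (2 * (U.card - 1)) v := by
  have hpos : 0 < U.card := card_pos.2 ⟨v, hv⟩
  obtain ⟨A, hAU, hc, _, hS⟩ := conn_grow G hU hv (U.card - 1) (by omega)
  have : A = U := eq_of_subset_of_card_le hAU (by omega)
  rwa [this] at hS

open Classical in
theorem card_conn {d : ℕ} (hd1 : 1 ≤ d) (hd : ∀ v, G.degree v ≤ d) (k : ℕ) (hk : 1 ≤ k) :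
    (univ.filter fun U : Finset V => Conn G U ∧ U.card = k).card ≤
      Fintype.card V * d ^ (2 * k) := by
  calc _ ≤ ((univ : Finset V).biUnion fun v => S G (2 * (k - 1)) v).card := by
        apply card_le_card
        intro U hU
        rw [mem_filter] at hU
        obtain ⟨_, hc, hk'⟩ := hU
        have hne : U.Nonempty := card_pos.1 (by omega)
        obtain ⟨v, hv⟩ := hne
        rw [mem_biUnion]
        refine ⟨v, mem_univ _, ?_⟩
        rw [← hk']
        exact conn_mem G hc hv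
    _ ≤ ∑ v : V, (S G (2 * (k - 1)) v).card := card_biUnion_le
    _ ≤ ∑ v : V, d ^ (2 * k) := by
        refine sum_le_sum fun v _ => (card_S G hd _ v).trans ?_
        exact Nat.pow_le_pow_right hd1 (by omega)
    _ = Fintype.card V * d ^ (2 * k) := by rw [sum_const, smul_eq_mul, card_univ]

/-- the functional -/
noncomputable def F (D : V → V → ℝ) (U : Finset V) : ℝ :=
  ∑ u ∈ U, ∑ v, if G.Adj u v then (if v ∈ U then D u v else 1) else 0

theorem min_bad (D : V → V → ℝ) (c : ℝ)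
    (h : ∃ U : Finset V, U.Nonempty ∧ F G D U < c * U.card) :
    ∃ U : Finset V, U.Nonempty ∧ F G D U < c * U.card ∧ Conn G U := by
  classical
  obtain ⟨U0, h0⟩ := h
  obtain ⟨U, hU, hmin⟩ := (univ.filter fun U : Finset V => U.Nonempty ∧ F G D U < c * U.card)
    |>.exists_min_image card ⟨U0, by simpa using h0⟩
  rw [mem_filter] at hU
  refine ⟨U, hU.2.1, hU.2.2, ?_⟩
  intro A hAU hA hne
  by_contra hcon
  push Not at hcon
  have key : ∀ W ⊆ U, (∀ x ∈ W, ∀ y ∈ U \ W, ¬ G.Adj x y) → W.Nonempty → W ≠ U →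
      c * W.card ≤ ∑ u ∈ W, ∑ v, if G.Adj u v then (if v ∈ U then D u v else 1) else 0 := by
    intro W hWU hW1 hWne hWU'
    have h1 : F G D W = ∑ u ∈ W, ∑ v, if G.Adj u v then (if v ∈ U then D u v else 1) else 0 := by
      unfold F
      refine sum_congr rfl fun u hu => sum_congr rfl fun v _ => ?_
      by_cases hadj : G.Adj u v
      · rw [if_pos hadj, if_pos hadj]
        by_cases hvW : v ∈ W
        · rw [if_pos hvW, if_pos (hWU hvW)]
        · have : v ∉ U := fun hvU => hW1 u hu v (mem_sdiff.2 ⟨hvU, hvW⟩) hadj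
          rw [if_neg hvW, if_neg this]
      · rw [if_neg hadj, if_neg hadj]
    rw [← h1]
    by_contra hlt
    push Not at hlt
    have h2 := hmin W (by simp [hWne, hlt])
    exact hWU' (eq_of_subset_of_card_le hWU h2)
  have k1 := key A hAU hcon hA hne
  have hAne : (U \ A).Nonempty := by
    rw [sdiff_nonempty]
    intro hsub
    exact hne (Subset.antisymm hAU hsub)
  have k2 := key (U \ A) sdiff_subset (by
    intro x hx y hy hxy
    rw [mem_sdiff] at hx hy
    have hyA : y ∈ A := by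
      by_contra hyA
      exact hy.2 (mem_sdiff.2 ⟨hy.1, hyA⟩)
    exact hcon y hyA x (mem_sdiff.2 hx) hxy.symm) hAne (by
    intro heq
    obtain ⟨a, ha⟩ := hA
    have h3 : a ∈ U \ A := by
      rw [heq]
      exact hAU ha
    exact (mem_sdiff.1 h3).2 ha)
  have hsum : F G D U = (∑ u ∈ A, ∑ v, if G.Adj u v then (if v ∈ U then D u v else 1) else 0) +
      ∑ u ∈ U \ A, ∑ v, if G.Adj u v then (if v ∈ U then D u v else 1) else 0 := by
    unfold F
    rw [add_comm, sum_sdiff hAU]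
  have hcard : (U.card : ℝ) = A.card + (U \ A).card := by
    have := card_sdiff_add_card_eq_card hAU
    exact_mod_cast (by omega : U.card = A.card + (U \ A).card)
  have := hU.2.2
  rw [hsum, hcard] at this
  linarith

end conn

section weight

variable {X : Type} [Fintype X] [DecidableEq X]

open Classical in
theorem weight_sum (P : Finset X) (bad : X → Bool → Prop)
    (h : ∀ p ∈ P, bad p true ∨ bad p false) :
    ∑ s : X → Bool, (1 / 4 : ℝ) ^ (P.filter fun p => bad p (s p)).card ≤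
      2 ^ Fintype.card X * (5 / 8 : ℝ) ^ P.card := by
  have h1 : ∀ s : X → Bool, (1 / 4 : ℝ) ^ (P.filter fun p => bad p (s p)).card =
      ∏ x, (if x ∈ P ∧ bad x (s x) then (1 / 4 : ℝ) else 1) := by
    intro s
    rw [prod_ite, prod_const_one, mul_one, prod_const]
    congr 2
    ext x
    simp
  calc _ = ∑ s : X → Bool, ∏ x, (if x ∈ P ∧ bad x (s x) then (1 / 4 : ℝ) else 1) :=
        sum_congr rfl fun s _ => h1 s
    _ = ∏ x : X, ∑ b : Bool, (if x ∈ P ∧ bad x b then (1 / 4 : ℝ) else 1) := by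
        rw [prod_univ_sum, Fintype.piFinset_univ]
    _ ≤ ∏ x : X, (2 * if x ∈ P then (5 / 8 : ℝ) else 1) := by
        refine prod_le_prod (fun x _ => sum_nonneg fun b _ => by split_ifs <;> norm_num)
          fun x _ => ?_
        rw [Fintype.sum_bool]
        by_cases hx : x ∈ P
        · rcases h x hx with hb | hb
          · rw [if_pos ⟨hx, hb⟩, if_pos hx]
            split_ifs <;> norm_num
          · rw [if_pos (show x ∈ P ∧ bad x false from ⟨hx, hb⟩), if_pos hx]
            split_ifs <;> norm_num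
        · simp only [hx, false_and, if_false]
          norm_num
    _ = 2 ^ Fintype.card X * (5 / 8 : ℝ) ^ P.card := by
        rw [prod_mul_distrib, prod_const, card_univ, prod_ite_mem, univ_inter, prod_const]

end weight

section net

/-- the grid -/
abbrev K : Type := Fin 201 × Fin 201

/-- points of the grid -/
noncomputable def pt (k : K) : ℂ := ⟨((k.1 : ℕ) - 100 : ℝ) / 100, ((k.2 : ℕ) - 100 : ℝ) / 100⟩

theorem round1 (x : ℝ) (hx : |x| ≤ 1) : ∃ j : Fin 201, |x - ((j : ℕ) - 100 : ℝ) / 100| ≤ 1 / 100 := by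
  have h1 := abs_le.1 hx
  have h0 : 0 ≤ 100 * x + 100 := by linarith
  have hfl : ⌊100 * x + 100⌋₊ < 201 := by
    rw [Nat.floor_lt h0]
    push_cast
    linarith
  refine ⟨⟨⌊100 * x + 100⌋₊, hfl⟩, ?_⟩
  have h2 := Nat.floor_le h0
  have h3 := Nat.lt_floor_add_one (100 * x + 100)
  simp only
  rw [abs_le]
  constructor <;> linarith

theorem net (z : ℂ) (hz : ‖z‖ = 1) : ∃ k : K, ‖z - pt k‖ ≤ 1 / 50 := by
  have h1 : |z.re| ≤ 1 := hz ▸ Complex.abs_re_le_norm z
  have h2 : |z.im| ≤ 1 := hz ▸ Complex.abs_im_le_norm z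
  obtain ⟨a, ha⟩ := round1 _ h1
  obtain ⟨b, hb⟩ := round1 _ h2
  refine ⟨(a, b), ?_⟩
  refine (Complex.norm_le_abs_re_add_abs_im _).trans ?_
  have e1 : (z - pt (a, b)).re = z.re - ((a : ℕ) - 100 : ℝ) / 100 := by simp [pt]
  have e2 : (z - pt (a, b)).im = z.im - ((b : ℕ) - 100 : ℝ) / 100 := by simp [pt]
  rw [e1, e2]
  linarith

end net


section main

variable {V : Type} [Fintype V] [DecidableEq V] (G : SimpleGraph V) [DecidableRel G.Adj]

/-- index of a vertex -/
noncomputable def idx (v : V) : ℕ := (Fintype.equivFin V v : ℕ)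

theorem idx_inj {u v : V} (h : idx u = idx v) : u = v :=
  (Fintype.equivFin V).injective (Fin.ext h)

/-- the cochain of a family of bits -/
noncomputable def hh (s : V × V → Bool) (u v : V) : ℤ :=
  if idx u < idx v then (if s (u, v) then 1 else 0)
  else if idx v < idx u then -(if s (v, u) then 1 else 0) else 0

theorem hh_anti (s : V × V → Bool) (u v : V) : hh s v u = - hh s u v := by
  unfold hh
  rcases lt_trichotomy (idx u) (idx v) with h | h | h
  · rw [if_neg (not_lt.2 h.le), if_pos h, if_pos h]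
  · simp [h]
  · rw [if_pos h, if_neg (not_lt.2 h.le), if_pos h, neg_neg]

theorem hh_abs (s : V × V → Bool) (u v : V) : |hh s u v| ≤ 1 := by
  unfold hh
  split_ifs <;> simp

/-- the oriented inside edges -/
noncomputable def P (U : Finset V) : Finset (V × V) :=
  (U ×ˢ U).filter fun p => G.Adj p.1 p.2 ∧ idx p.1 < idx p.2

theorem two_P (U : Finset V) :
    (∑ u ∈ U, ∑ v ∈ U, if G.Adj u v then 1 else 0) = 2 * (P G U).card := by
  have h1 : (∑ u ∈ U, ∑ v ∈ U, if G.Adj u v then 1 else 0) =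
      ((U ×ˢ U).filter fun p => G.Adj p.1 p.2).card := by
    rw [card_filter, sum_product]
  have h2 : ((U ×ˢ U).filter fun p => G.Adj p.1 p.2) = P G U ∪ (P G U).image Prod.swap := by
    ext ⟨a, b⟩
    simp only [P, mem_filter, mem_product, mem_union, mem_image, Prod.exists, Prod.swap_prod_mk,
      Prod.mk.injEq]
    constructor
    · rintro ⟨⟨ha, hb⟩, hab⟩
      rcases lt_trichotomy (idx a) (idx b) with h | h | h
      · exact Or.inl ⟨⟨ha, hb⟩, hab, h⟩
      · exact absurd (idx_inj h) hab.ne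
      · exact Or.inr ⟨b, a, ⟨⟨hb, ha⟩, hab.symm, h⟩, rfl, rfl⟩
    · rintro (⟨⟨ha, hb⟩, hab, _⟩ | ⟨x, y, ⟨⟨hx, hy⟩, hxy, _⟩, rfl, rfl⟩)
      · exact ⟨⟨ha, hb⟩, hab⟩
      · exact ⟨⟨hy, hx⟩, hxy.symm⟩
  have h3 : Disjoint (P G U) ((P G U).image Prod.swap) := by
    rw [disjoint_left]
    rintro ⟨a, b⟩ h4 h5
    simp only [P, mem_filter, mem_product, mem_image, Prod.exists, Prod.swap_prod_mk,
      Prod.mk.injEq] at h4 h5
    obtain ⟨x, y, ⟨_, _, h6⟩, rfl, rfl⟩ := h5
    exact absurd h6 (not_lt.2 h4.2.2.le)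
  rw [h1, h2, card_union_of_disjoint h3, card_image_of_injective _ Prod.swap_injective]
  ring

/-- goodness of a bit for a rounded datum -/
def Good (β : K) (ψ : V → K) (p : V × V) (b : Bool) : Prop :=
  ‖pt (ψ p.1) - (if b then pt β else 1) * pt (ψ p.2)‖ ≤ 14 / 100 ∧ 9 / 10 ≤ ‖pt (ψ p.2)‖ ∧
    9 / 10 ≤ ‖1 - pt β‖

theorem good_one (β : K) (ψ : V → K) (p : V × V) : ¬ Good β ψ p true ∨ ¬ Good β ψ p false := by
  by_contra hcon
  push Not at hcon
  obtain ⟨⟨h1, h2, h3⟩, h4, _⟩ := hcon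
  simp only [if_true, if_false, one_mul, Bool.false_eq_true] at h1 h4
  have h5 : ‖(1 - pt β) * pt (ψ p.2)‖ ≤ 28 / 100 := by
    have e : (1 - pt β) * pt (ψ p.2) = (pt (ψ p.1) - pt β * pt (ψ p.2)) -
        (pt (ψ p.1) - pt (ψ p.2)) := by ring
    rw [e]
    refine (norm_sub_le _ _).trans ?_
    linarith
  rw [norm_mul] at h5
  nlinarith

theorem good_of {B : ℂ} (hB : ‖B‖ = 1) (hB1 : 1 ≤ ‖B - 1‖) {φ : V → ℂ} (hφ : ∀ v, ‖φ v‖ = 1)
    {β : K} (hβ : ‖B - pt β‖ ≤ 1 / 50) {ψ : V → K} (p : V × V) (h1 : ‖φ p.1 - pt (ψ p.1)‖ ≤ 1 / 50)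
    (h2 : ‖φ p.2 - pt (ψ p.2)‖ ≤ 1 / 50) (b : Bool)
    (h3 : ‖φ p.1 - (if b then B else 1) * φ p.2‖ ≤ 1 / 16) : Good β ψ p b := by
  have n1 : ‖pt (ψ p.2)‖ ≤ 51 / 50 := by
    have e : pt (ψ p.2) = φ p.2 - (φ p.2 - pt (ψ p.2)) := by ring
    rw [e]
    refine (norm_sub_le _ _).trans ?_
    rw [hφ]
    linarith
  refine ⟨?_, ?_, ?_⟩
  · set c : ℂ := if b then B else 1 with hc
    set c' : ℂ := if b then pt β else 1 with hc'
    have hcc : ‖c - c'‖ ≤ 1 / 50 := by
      rw [hc, hc']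
      cases b
      · simp
      · simpa using hβ
    have hcn : ‖c‖ = 1 := by
      rw [hc]
      cases b
      · simp
      · simpa using hB
    have e : pt (ψ p.1) - c' * pt (ψ p.2) = (φ p.1 - c * φ p.2) - (φ p.1 - pt (ψ p.1)) +
        (c * (φ p.2 - pt (ψ p.2)) + (c - c') * pt (ψ p.2)) := by ring
    rw [e]
    have i1 : ‖c * (φ p.2 - pt (ψ p.2))‖ ≤ 1 / 50 := by rw [norm_mul, hcn, one_mul]; exact h2
    have i2 : ‖(c - c') * pt (ψ p.2)‖ ≤ 1 / 50 * (51 / 50) := by
      rw [norm_mul]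
      exact mul_le_mul hcc n1 (norm_nonneg _) (by norm_num)
    have i3 := norm_add_le ((φ p.1 - c * φ p.2) - (φ p.1 - pt (ψ p.1)))
      (c * (φ p.2 - pt (ψ p.2)) + (c - c') * pt (ψ p.2))
    have i4 := norm_sub_le (φ p.1 - c * φ p.2) (φ p.1 - pt (ψ p.1))
    have i5 := norm_add_le (c * (φ p.2 - pt (ψ p.2))) ((c - c') * pt (ψ p.2))
    linarith
  · have e : φ p.2 = (φ p.2 - pt (ψ p.2)) + pt (ψ p.2) := by ring
    have := norm_add_le (φ p.2 - pt (ψ p.2)) (pt (ψ p.2))
    rw [← e, hφ] at this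
    linarith
  · have e : B - 1 = (B - pt β) - (1 - pt β) := by ring
    have := norm_sub_le (B - pt β) (1 - pt β)
    rw [← e] at this
    linarith

open Classical in
/-- what a bad family of bits gives -/
theorem bad_data (g : ℕ) (hdense : ∀ U : Finset V, 200 * U.card ≤
      (∑ u ∈ U, ∑ v ∈ U, if G.Adj u v then 1 else 0) +
        2 * ∑ u ∈ U, ∑ v ∈ Uᶜ, if G.Adj u v then 1 else 0)
    (hgirth : ∀ U : Finset V, U.Nonempty →
      2 * U.card ≤ (∑ u ∈ U, ∑ v ∈ U, if G.Adj u v then 1 else 0) → g ≤ U.card)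
    (s : V × V → Bool)
    (hbad : ∃ B : ℂ, ‖B‖ = 1 ∧ 1 ≤ ‖B - 1‖ ∧ ∃ φ : V → ℂ, (∀ v, ‖φ v‖ = 1) ∧
      ∃ U : Finset V, U.Nonempty ∧ F G (fun u v => ‖φ u - B ^ (hh s u v) * φ v‖) U <
        (1 / 16 : ℝ) * U.card) :
    ∃ U : Finset V, Conn G U ∧ g ≤ U.card ∧ 99 * U.card ≤ (P G U).card ∧
      ∃ β : K, ∃ ψ : V → K, (∀ v ∉ U, ψ v = (0, 0)) ∧
        ((P G U).filter fun p => ¬ Good β ψ p (s p)).card < U.card := by
  obtain ⟨B, hB, hB1, φ, hφ, hU0⟩ := hbad
  obtain ⟨U, hne, hF, hconn⟩ := min_bad G _ _ hU0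
  set D : V → V → ℝ := fun u v => ‖φ u - B ^ (hh s u v) * φ v‖ with hD
  have hsplit : F G D U = (∑ u ∈ U, ∑ v ∈ U, if G.Adj u v then D u v else 0) +
      ∑ u ∈ U, ∑ v ∈ Uᶜ, if G.Adj u v then (1 : ℝ) else 0 := by
    unfold F
    rw [← sum_add_distrib]
    refine sum_congr rfl fun u _ => ?_
    rw [← sum_add_sum_compl U]
    congr 1
    · refine sum_congr rfl fun v hv => ?_
      rw [if_pos hv]
    · refine sum_congr rfl fun v hv => ?_
      rw [if_neg (mem_compl.1 hv)]
  have hin0 : 0 ≤ ∑ u ∈ U, ∑ v ∈ U, if G.Adj u v then D u v else 0 :=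
    sum_nonneg fun u _ => sum_nonneg fun v _ => by
      split_ifs
      · exact norm_nonneg _
      · exact le_rfl
  have hbcast : (∑ u ∈ U, ∑ v ∈ Uᶜ, if G.Adj u v then (1 : ℝ) else 0) =
      ((∑ u ∈ U, ∑ v ∈ Uᶜ, if G.Adj u v then 1 else 0 : ℕ) : ℝ) := by
    push_cast
    rfl
  set b : ℕ := ∑ u ∈ U, ∑ v ∈ Uᶜ, if G.Adj u v then 1 else 0 with hb
  have hb0 : (0 : ℝ) ≤ (b : ℝ) := Nat.cast_nonneg _
  have hb16 : 16 * b < U.card := by
    have : (16 : ℝ) * b < U.card := by linarith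
    exact_mod_cast this
  have hd := hdense U
  have h2P := two_P G U
  rw [h2P] at hd
  have hg := hgirth U hne (by rw [h2P]; omega)
  refine ⟨U, hconn, hg, by omega, ?_⟩
  obtain ⟨β, hβ⟩ := net B hB
  choose ψ hψ using fun v => net (φ v) (hφ v)
  refine ⟨β, fun v => if v ∈ U then ψ v else (0, 0), fun v hv => if_neg hv, ?_⟩
  -- the nongood pairs have large D
  have hsub : ((P G U).filter fun p => ¬ Good β (fun v => if v ∈ U then ψ v else (0, 0)) p (s p)) ⊆
      (P G U).filter fun p => 1 / 16 < D p.1 p.2 := by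
    intro p hp
    rw [mem_filter] at hp ⊢
    refine ⟨hp.1, ?_⟩
    by_contra hcon
    push Not at hcon
    apply hp.2
    have hpP := hp.1
    rw [P, mem_filter, mem_product] at hpP
    obtain ⟨⟨hp1, hp2⟩, _, hlt⟩ := hpP
    apply good_of hB hB1 hφ hβ
    · simp only [hp1, if_true]
      exact hψ _
    · simp only [hp2, if_true]
      exact hψ _
    · have e : hh s p.1 p.2 = if s p then 1 else 0 := by
        unfold hh
        rw [if_pos hlt]
      have e2 : D p.1 p.2 = ‖φ p.1 - (if s p then B else 1) * φ p.2‖ := by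
        rw [hD]
        simp only
        rw [e]
        cases s p <;> simp
      rw [← e2]
      exact hcon
  have hle : (1 / 16 : ℝ) * ((P G U).filter fun p => 1 / 16 < D p.1 p.2).card ≤
      ∑ u ∈ U, ∑ v ∈ U, if G.Adj u v then D u v else 0 := by
    calc (1 / 16 : ℝ) * ((P G U).filter fun p => 1 / 16 < D p.1 p.2).card
        = ∑ p ∈ (P G U).filter fun p => 1 / 16 < D p.1 p.2, (1 / 16 : ℝ) := by
          rw [sum_const, nsmul_eq_mul, mul_comm]
      _ ≤ ∑ p ∈ (P G U).filter fun p => 1 / 16 < D p.1 p.2,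
            if G.Adj p.1 p.2 then D p.1 p.2 else 0 := by
          refine sum_le_sum fun p hp => ?_
          rw [mem_filter, P, mem_filter] at hp
          rw [if_pos hp.1.2.1]
          exact hp.2.le
      _ ≤ ∑ p ∈ U ×ˢ U, if G.Adj p.1 p.2 then D p.1 p.2 else 0 := by
          refine sum_le_sum_of_subset_of_nonneg ?_ fun p _ _ => ?_
          · intro p hp
            rw [mem_filter, P, mem_filter] at hp
            exact hp.1.1
          · split_ifs
            · exact norm_nonneg _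
            · exact le_rfl
      _ = _ := by rw [sum_product]
  have hfin : (((P G U).filter fun p => 1 / 16 < D p.1 p.2).card : ℝ) < U.card := by
    linarith
  have hfin' : ((P G U).filter fun p => 1 / 16 < D p.1 p.2).card < U.card := by exact_mod_cast hfin
  exact (card_le_card hsub).trans_lt hfin'

/-- rounded functions supported on `U` -/
def Psi (U : Finset V) : Finset (V → K) :=
  Fintype.piFinset fun v => if v ∈ U then (univ : Finset K) else {((0, 0) : K)}

theorem mem_Psi {U : Finset V} {ψ : V → K} : ψ ∈ Psi U ↔ ∀ v ∉ U, ψ v = (0, 0) := by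
  rw [Psi, Fintype.mem_piFinset]
  refine forall_congr' fun v => ?_
  by_cases hv : v ∈ U
  · simp [hv]
  · simp [hv]

theorem card_Psi (U : Finset V) : (Psi U).card = 40401 ^ U.card := by
  rw [Psi, Fintype.card_piFinset]
  have : ∀ v : V, (if v ∈ U then (univ : Finset K) else {((0, 0) : K)}).card =
      if v ∈ U then 40401 else 1 := by
    intro v
    split_ifs
    · rw [card_univ, Fintype.card_prod, Fintype.card_fin]
    · rw [card_singleton]
  simp only [this]
  rw [prod_ite_mem, univ_inter, prod_const]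

theorem geo (n : ℕ) : ∑ k ∈ range n, (1 / 4 : ℝ) ^ (k + 1) < 1 := by
  have : ∑ k ∈ range n, (1 / 4 : ℝ) ^ (k + 1) = (1 - (1 / 4 : ℝ) ^ n) / 3 := by
    induction n with
    | zero => simp
    | succ n ih =>
      rw [sum_range_succ, ih, pow_succ]
      ring
  rw [this]
  have : (0 : ℝ) < (1 / 4 : ℝ) ^ n := by positivity
  linarith

theorem geo_Icc (g n : ℕ) (hg : 1 ≤ g) : ∑ k ∈ Icc g n, (1 / 4 : ℝ) ^ k < 1 := by
  refine lt_of_le_of_lt ?_ (geo n)
  calc ∑ k ∈ Icc g n, (1 / 4 : ℝ) ^ k ≤ ∑ k ∈ Icc 1 n, (1 / 4 : ℝ) ^ k := by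
        refine sum_le_sum_of_subset_of_nonneg (Icc_subset_Icc_left hg) fun _ _ _ => by positivity
    _ = ∑ k ∈ range n, (1 / 4 : ℝ) ^ (k + 1) := by
        rw [range_eq_Ico, sum_Ico_add' (fun k => (1 / 4 : ℝ) ^ k) 0 n 1]
        rfl

theorem numeric (g k n : ℕ) (hk : 1 ≤ k) (hgk : g ≤ k) (hn : n ≤ 4 * 400 ^ g) :
    ((n : ℝ) * 400 ^ (2 * k)) * (40401 * (40401 * 4 * (5 / 8) ^ 99) ^ k) ≤ (1 / 4) ^ k := by
  have h1 : (n : ℝ) ≤ 4 * 400 ^ k := by
    have : (n : ℝ) ≤ 4 * 400 ^ g := by exact_mod_cast hn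
    refine this.trans ?_
    have := pow_le_pow_right₀ (by norm_num : (1 : ℝ) ≤ 400) hgk
    linarith
  have h2 : (400 : ℝ) ^ 3 * (40401 * 4 * (5 / 8) ^ 99) ≤ 1 / 10000000 := by norm_num
  calc ((n : ℝ) * 400 ^ (2 * k)) * (40401 * (40401 * 4 * (5 / 8) ^ 99) ^ k)
      ≤ ((4 * 400 ^ k) * 400 ^ (2 * k)) * (40401 * (40401 * 4 * (5 / 8) ^ 99) ^ k) := by
        gcongr
    _ = 161604 * (400 ^ 3 * (40401 * 4 * (5 / 8) ^ 99)) ^ k := by
        rw [mul_pow (400 ^ 3 : ℝ), ← pow_mul, show 3 * k = k + 2 * k by ring, pow_add]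
        ring
    _ ≤ 161604 * (1 / 10000000) ^ k := by
        gcongr
    _ = 161604 * (1 / 2500000) ^ k * (1 / 4) ^ k := by
        rw [mul_assoc, ← mul_pow]
        norm_num
    _ ≤ 1 * (1 / 4) ^ k := by
        gcongr
        have : (1 / 2500000 : ℝ) ^ k ≤ (1 / 2500000) ^ 1 :=
          pow_le_pow_of_le_one (by norm_num) (by norm_num) hk
        rw [pow_one] at this
        linarith
    _ = (1 / 4) ^ k := one_mul _

end main

/-- Existence of a 0/1 cochain `h` on a sparse graph of large girth such that all the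
connections `B ^ h`, `|B| = 1`, `|B - 1| ≥ 1`, are frustrated on every vertex set. -/
theorem exists_connection {V : Type} [Fintype V] [DecidableEq V] (G : SimpleGraph V)
    [DecidableRel G.Adj] (g : ℕ) (hg : 20 ≤ g) (hcard : Fintype.card V ≤ 4 * 400 ^ g)
    (hd : ∀ v, G.degree v ≤ 400)
    (hdense : ∀ U : Finset V, 200 * U.card ≤
      (∑ u ∈ U, ∑ v ∈ U, if G.Adj u v then 1 else 0) +
        2 * ∑ u ∈ U, ∑ v ∈ Uᶜ, if G.Adj u v then 1 else 0)
    (hgirth : ∀ U : Finset V, U.Nonempty →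
      2 * U.card ≤ (∑ u ∈ U, ∑ v ∈ U, if G.Adj u v then 1 else 0) → g ≤ U.card) :
    ∃ h : V → V → ℤ, (∀ u v, h v u = - h u v) ∧ (∀ u v, |h u v| ≤ 1) ∧
      ∀ (B : ℂ), ‖B‖ = 1 → 1 ≤ ‖B - 1‖ →
      ∀ U : Finset V, U.Nonempty → ∀ φ : V → ℂ, (∀ v, ‖φ v‖ = 1) →
      (1 / 16 : ℝ) * U.card ≤ ∑ u ∈ U, ∑ v, if G.Adj u v then
        (if v ∈ U then ‖φ u - B ^ (h u v) * φ v‖ else 1) else 0 := by
  classical
  by_contra hcon
  push Not at hcon
  -- every family of bits is bad
  have hbad : ∀ s : V × V → Bool, ∃ U : Finset V, Conn G U ∧ g ≤ U.card ∧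
      99 * U.card ≤ (P G U).card ∧ ∃ β : K, ∃ ψ : V → K, (∀ v ∉ U, ψ v = (0, 0)) ∧
        ((P G U).filter fun p => ¬ Good β ψ p (s p)).card < U.card := by
    intro s
    apply bad_data G g hdense hgirth s
    obtain ⟨B, hB, hB1, U, hU, φ, hφ, hlt⟩ := hcon (hh s) (hh_anti s) (hh_abs s)
    exact ⟨B, hB, hB1, φ, hφ, U, hU, hlt⟩
  set UU : Finset (Finset V) := univ.filter fun U : Finset V =>
    Conn G U ∧ g ≤ U.card ∧ 99 * U.card ≤ (P G U).card with hUU
  set X : ℕ := Fintype.card (V × V) with hX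
  have hXpos : (0 : ℝ) < 2 ^ X := by positivity
  have step1 : (2 : ℝ) ^ X ≤ ∑ s : V × V → Bool, ∑ U ∈ UU, ∑ β : K, ∑ ψ ∈ Psi U,
      4 ^ U.card * (1 / 4 : ℝ) ^ ((P G U).filter fun p => ¬ Good β ψ p (s p)).card := by
    have h1 : (2 : ℝ) ^ X = ∑ s : V × V → Bool, (1 : ℝ) := by
      rw [sum_const, card_univ, nsmul_eq_mul, mul_one, Fintype.card_fun, Fintype.card_bool]
      push_cast
      rfl
    rw [h1]
    refine sum_le_sum fun s _ => ?_
    obtain ⟨U, hc, hgU, h99, β, ψ, hψ, hN⟩ := hbad s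
    have hnn : ∀ (U : Finset V) (β : K) (ψ : V → K), (0 : ℝ) ≤
        4 ^ U.card * (1 / 4 : ℝ) ^ ((P G U).filter fun p => ¬ Good β ψ p (s p)).card := by
      intro U β ψ
      positivity
    have t1 : (1 : ℝ) ≤
        4 ^ U.card * (1 / 4 : ℝ) ^ ((P G U).filter fun p => ¬ Good β ψ p (s p)).card := by
      have := pow_le_pow_of_le_one (by norm_num : (0 : ℝ) ≤ 1 / 4) (by norm_num) hN.le
      calc (1 : ℝ) = 4 ^ U.card * (1 / 4) ^ U.card := by
            rw [← mul_pow]; norm_num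
        _ ≤ _ := by gcongr
    have t2 := single_le_sum (f := fun ψ => (4 : ℝ) ^ U.card *
      (1 / 4 : ℝ) ^ ((P G U).filter fun p => ¬ Good β ψ p (s p)).card)
      (fun ψ _ => hnn U β ψ) (mem_Psi.2 hψ)
    have t3 := single_le_sum (f := fun β => ∑ ψ ∈ Psi U, (4 : ℝ) ^ U.card *
      (1 / 4 : ℝ) ^ ((P G U).filter fun p => ¬ Good β ψ p (s p)).card)
      (fun β _ => sum_nonneg fun ψ _ => hnn U β ψ) (mem_univ β)
    have hmem : U ∈ UU := by
      rw [hUU, mem_filter]
      exact ⟨mem_univ _, hc, hgU, h99⟩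
    have t4 := single_le_sum (f := fun U => ∑ β : K, ∑ ψ ∈ Psi U, (4 : ℝ) ^ U.card *
      (1 / 4 : ℝ) ^ ((P G U).filter fun p => ¬ Good β ψ p (s p)).card)
      (fun U _ => sum_nonneg fun β _ => sum_nonneg fun ψ _ => hnn U β ψ) hmem
    exact t1.trans (t2.trans (t3.trans t4))
  have step2 : (∑ s : V × V → Bool, ∑ U ∈ UU, ∑ β : K, ∑ ψ ∈ Psi U,
      4 ^ U.card * (1 / 4 : ℝ) ^ ((P G U).filter fun p => ¬ Good β ψ p (s p)).card) ≤
      ∑ U ∈ UU, 2 ^ X * (40401 * (40401 * 4 * (5 / 8) ^ 99) ^ U.card) := by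
    rw [sum_comm]
    refine sum_le_sum fun U hU => ?_
    rw [sum_comm]
    rw [hUU, mem_filter] at hU
    obtain ⟨_, _, _, h99⟩ := hU
    have hβ : ∀ β : K, (∑ s : V × V → Bool, ∑ ψ ∈ Psi U,
        4 ^ U.card * (1 / 4 : ℝ) ^ ((P G U).filter fun p => ¬ Good β ψ p (s p)).card) ≤
        2 ^ X * (40401 * 4 * (5 / 8) ^ 99) ^ U.card := by
      intro β
      rw [sum_comm]
      calc _ ≤ ∑ ψ ∈ Psi U, (4 ^ U.card * (2 ^ X * (5 / 8 : ℝ) ^ (99 * U.card))) := by
            refine sum_le_sum fun ψ _ => ?_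
            rw [← mul_sum]
            refine mul_le_mul_of_nonneg_left ?_ (by positivity)
            have w1 := weight_sum (P G U) (fun p b => ¬ Good β ψ p b) fun p _ => good_one β ψ p
            have w2 : (2 : ℝ) ^ X * (5 / 8 : ℝ) ^ (P G U).card ≤
                2 ^ X * (5 / 8 : ℝ) ^ (99 * U.card) := by
              refine mul_le_mul_of_nonneg_left ?_ (by positivity)
              exact pow_le_pow_of_le_one (by norm_num) (by norm_num) h99
            refine le_trans (le_of_eq ?_) (w1.trans w2)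
            refine sum_congr rfl fun s _ => ?_
            congr 2
            ext p
            simp only [mem_filter]
        _ = 2 ^ X * (40401 * 4 * (5 / 8) ^ 99) ^ U.card := by
            rw [sum_const, card_Psi, nsmul_eq_mul, pow_mul, mul_pow, mul_pow]
            push_cast
            ring
    calc _ ≤ ∑ β : K, 2 ^ X * (40401 * 4 * (5 / 8 : ℝ) ^ 99) ^ U.card :=
          sum_le_sum fun β _ => hβ β
      _ = 2 ^ X * (40401 * (40401 * 4 * (5 / 8) ^ 99) ^ U.card) := by
          rw [sum_const, card_univ, Fintype.card_prod, Fintype.card_fin, nsmul_eq_mul]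
          push_cast
          ring
  have step3 : ∑ U ∈ UU, (40401 * (40401 * 4 * (5 / 8 : ℝ) ^ 99) ^ U.card) < 1 := by
    have hmaps : ∀ U ∈ UU, U.card ∈ Icc g (Fintype.card V) := by
      intro U hU
      rw [hUU, mem_filter] at hU
      rw [mem_Icc]
      exact ⟨hU.2.2.1, card_le_univ U⟩
    rw [← sum_fiberwise_of_maps_to hmaps]
    refine lt_of_le_of_lt (sum_le_sum fun k hk => ?_) (geo_Icc g (Fintype.card V) (by omega))
    rw [mem_Icc] at hk
    calc ∑ U ∈ UU with U.card = k, (40401 * (40401 * 4 * (5 / 8 : ℝ) ^ 99) ^ U.card)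
        = ∑ U ∈ UU with U.card = k, (40401 * (40401 * 4 * (5 / 8 : ℝ) ^ 99) ^ k) := by
          refine sum_congr rfl fun U hU => ?_
          rw [(mem_filter.1 hU).2]
      _ = ((UU.filter fun U => U.card = k).card : ℝ) *
            (40401 * (40401 * 4 * (5 / 8 : ℝ) ^ 99) ^ k) := by
          rw [sum_const, nsmul_eq_mul]
      _ ≤ ((Fintype.card V * 400 ^ (2 * k) : ℕ) : ℝ) *
            (40401 * (40401 * 4 * (5 / 8 : ℝ) ^ 99) ^ k) := by
          refine mul_le_mul_of_nonneg_right ?_ (by positivity)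
          have hsub : (UU.filter fun U => U.card = k) ⊆
              univ.filter fun U : Finset V => Conn G U ∧ U.card = k := by
            intro U hU
            rw [mem_filter, hUU, mem_filter] at hU
            rw [mem_filter]
            exact ⟨mem_univ _, hU.1.2.1, hU.2⟩
          exact_mod_cast (card_le_card hsub).trans (card_conn G (by norm_num) hd k (by omega))
      _ ≤ (1 / 4) ^ k := by
          push_cast
          exact numeric g k _ (by omega) hk.1 hcard
  have h4 := step1.trans step2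
  rw [← mul_sum] at h4
  have h5 : (2 : ℝ) ^ X * ∑ U ∈ UU, (40401 * (40401 * 4 * (5 / 8 : ℝ) ^ 99) ^ U.card) <
      2 ^ X * 1 := mul_lt_mul_of_pos_left step3 hXpos
  linarith

end Pool.Agent.TH628.J778
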