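import Pool.Agent.TH547.Arc.Env
import Pool.Agent.TH286.J795
set_option autoImplicit false
namespace Pool.Agent.TH628.J873
open Pool.Agent.TH547.Arc
open Pool.Agent.TH286.J795
open Finset Equiv

/-- two permutations which agree on the cycle of `s` -/
theorem zpow_eq {α : Type} {f g : Perm α} {s : α} (h : ∀ t, f.SameCycle s t → f t = g t) (n : ℤ) :
    (f ^ n) s = (g ^ n) s := by
  induction n using Int.induction_on with
  | zero => simp
  | succ n ih =>
    have h1 : f.SameCycle s ((f ^ (n : ℤ)) s) := ⟨n, rfl⟩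
    rw [add_comm, zpow_add, zpow_add, Perm.mul_apply, Perm.mul_apply, zpow_one, zpow_one, h _ h1,
      ih]
  | pred n ih =>
    have h1 : f.SameCycle s ((f ^ (-(n : ℤ) - 1)) s) := ⟨_, rfl⟩
    have h2 : f ((f ^ (-(n : ℤ) - 1)) s) = (f ^ (-(n : ℤ))) s := by
      rw [← Perm.mul_apply, ← zpow_one_add]
      congr 2
      ring
    have h3 : g ((g ^ (-(n : ℤ) - 1)) s) = (g ^ (-(n : ℤ))) s := by
      rw [← Perm.mul_apply, ← zpow_one_add]
      congr 2
      ring
    apply g.injective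
    rw [h3, ← ih, ← h2, h _ h1]

theorem sameCycle_iff {α : Type} {f g : Perm α} {s : α} (h : ∀ t, f.SameCycle s t → f t = g t)
    (t : α) : g.SameCycle s t ↔ f.SameCycle s t := by
  constructor
  · rintro ⟨n, hn⟩
    exact ⟨n, by rw [zpow_eq h, hn]⟩
  · rintro ⟨n, hn⟩
    exact ⟨n, by rw [← zpow_eq h, hn]⟩

theorem formPerm_map (f : Perm Sy) : ∀ l : List Sy,
    (l.map f).formPerm = f * l.formPerm * f⁻¹
  | [] => by simp
  | [a] => by simp
  | a :: b :: l => by
    have ih := formPerm_map f (b :: l)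
    rw [List.map_cons, List.map_cons, List.formPerm_cons_cons, List.formPerm_cons_cons,
      ← List.map_cons, ih, Equiv.swap_apply_apply]
    group

section
variable {θ : Perm Sy} {μ : PW} {P Dd : Finset Sy} {X : PW}

theorem mem_of_mu (hX : OvP μ P X) {s : Sy} (hs : s ∈ μ.x) : s ∈ X.x := by
  have h := hX.1
  rw [← h] at hs
  exact List.mem_of_mem_filter hs

theorem Env.last_mem (hE : Env θ μ P Dd) (hX : OvP μ P X) :
    ∃ (l : List Sy) (n : ℕ), X.x = l ++ [mr n] ∧ mr n ∈ μ.x := by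
  obtain ⟨l0, n0, h0⟩ := hE.last
  have hmem : mr n0 ∈ X.x := mem_of_mu hX (by rw [h0]; simp)
  rcases List.eq_nil_or_concat' X.x with h | ⟨l, s, h⟩
  · rw [h] at hmem
    simp at hmem
  have hsX : s ∈ X.x := by rw [h]; simp
  have hsμ : s ∈ μ.x := by
    by_contra hs
    obtain ⟨p, _, hp⟩ := hX.2.2 s hsX hs
    have hnd := X.nd
    rw [h, List.nodup_append] at hnd
    have hsl : s ∉ l := fun e => hnd.2.2 s e s (by simp) rfl
    have e1 : own μ.x X.x s = none := by
      unfold own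
      rw [h, List.dropWhile_append_of_pos]
      · simp [hs]
      · intro a ha
        simp only [decide_eq_true_eq]
        rintro rfl
        exact hsl ha
    rw [e1] at hp
    exact absurd hp (by simp)
  have h1 := hX.1
  rw [h, List.filter_append, List.filter_cons_of_pos (by simpa using hsμ), List.filter_nil, h0] at h1
  have h2 := (List.append_inj' h1 rfl).2
  rw [List.cons.injEq] at h2
  refine ⟨l, n0, ?_, ?_⟩
  · rw [h, h2.1]
  · rw [← h2.1]
    exact hsμ

theorem last' (hE : Env θ μ P Dd) (hX : OvP μ P X) :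
    ∃ (l : List Sy) (m : Sy), X.x = l ++ [m] ∧ m ∈ μ.x := by
  obtain ⟨l, n, h⟩ := Env.last_mem hE hX
  exact ⟨l, mr n, h⟩

theorem Env.own_ex (hE : Env θ μ P Dd) (hX : OvP μ P X) {s : Sy} (hs : s ∈ X.x) :
    ∃ m ∈ μ.x, own μ.x X.x s = some m := by
  obtain ⟨m, hm⟩ := own_exists hs (last' hE hX)
  exact ⟨m, (own_spec hm).1, hm⟩

/-- a free symbol is an end of a free arc -/
theorem free (hX : OvP μ P X) {s : Sy} (hs : s ∈ X.x) (hsμ : s ∉ μ.x) :
    ∃ a e, s = en a e ∧ a ∉ μ.ord ∧ a ∈ X.ord := by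
  rcases s with n | ⟨a, e⟩
  · exact absurd (hX.2.1 n hs) hsμ
  · exact ⟨a, e, rfl, fun h => hsμ ((PW.mem_ord' e).1 h), (PW.mem_ord' e).2 hs⟩

theorem theta_free (hE : Env θ μ P Dd) (hX : OvP μ P X) {s : Sy} (hs : s ∈ X.x) (hsμ : s ∉ μ.x) :
    θ s ∈ X.x ∧ θ s ∉ μ.x := by
  obtain ⟨a, e, rfl, ha, haX⟩ := free hX hs hsμ
  rw [hE.flip a ha e]
  exact ⟨(PW.mem_ord' _).1 haX, fun h => ha ((PW.mem_ord' _).2 h)⟩

theorem Env.theta_mem (hE : Env θ μ P Dd) (hX : OvP μ P X) : ∀ s ∈ X.x, θ s ∈ X.x := by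
  intro s hs
  by_cases hsμ : s ∈ μ.x
  · exact mem_of_mu hX (hE.pres s hsμ)
  · exact (theta_free hE hX hs hsμ).1

theorem Env.fp_mem (hE : Env θ μ P Dd) (hX : OvP μ P X) : ∀ s ∈ X.x, fp θ X.x s ∈ X.x := by
  intro s hs
  exact List.formPerm_apply_mem_of_mem (Env.theta_mem hE hX s hs)

theorem Env.fp_marker (hE : Env θ μ P Dd) (hX : OvP μ P X) {m : Sy} (hm : m ∈ μ.x) :
    own μ.x X.x (fp θ X.x m) = some (fp θ μ.x m) :=
  own_formPerm_marker X.nd hX.1 (hE.pres m hm) (last' hE hX)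

theorem Env.fp_marker_eq (hE : Env θ μ P Dd) (hX : OvP μ P X) {m : Sy} (hm : m ∈ μ.x)
    (h : fp θ μ.x m ∉ P) : fp θ X.x m = fp θ μ.x m := by
  have h1 := Env.fp_marker hE hX hm
  have h2 : fp θ X.x m ∈ X.x := Env.fp_mem hE hX m (mem_of_mu hX hm)
  by_cases h3 : fp θ X.x m ∈ μ.x
  · rw [own_self h3 h2] at h1
    exact Option.some.inj h1
  · obtain ⟨p, hp, h4⟩ := hX.2.2 _ h2 h3
    rw [h4] at h1
    exact absurd (Option.some.inj h1 ▸ hp) h

theorem Env.fp_letter (hE : Env θ μ P Dd) (hX : OvP μ P X) {s : Sy} (hs : s ∈ X.x) (hsμ : s ∉ μ.x) :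
    own μ.x X.x (fp θ X.x s) = own μ.x X.x (θ s) := by
  obtain ⟨h1, h2⟩ := theta_free hE hX hs hsμ
  exact own_formPerm X.nd h1 h2 (last' hE hX)

theorem Env.fp_dead (hE : Env θ μ P Dd) (hX : OvP μ P X) : ∀ s ∈ Dd, fp θ X.x s = fp θ μ.x s := by
  intro s hs
  refine Env.fp_marker_eq hE hX (hE.dsub s hs) fun h => ?_
  exact (hE.sub _ h).2 (hE.dinv s hs)

theorem Env.fp_inv (hE : Env θ μ P Dd) (hX : OvP μ P X) :
    ∀ s ∈ X.x, s ∉ Dd → fp θ X.x s ∈ X.x ∧ fp θ X.x s ∉ Dd := by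
  intro s hs hsD
  refine ⟨Env.fp_mem hE hX s hs, fun h => hsD ?_⟩
  have h1 : Dd.image (fp θ X.x) = Dd := by
    apply Finset.eq_of_subset_of_card_le
    · intro t ht
      obtain ⟨u, hu, rfl⟩ := Finset.mem_image.1 ht
      rw [Env.fp_dead hE hX u hu]
      exact hE.dinv u hu
    · rw [Finset.card_image_of_injective _ (fp θ X.x).injective]
  rw [← h1] at h
  obtain ⟨u, hu, h2⟩ := Finset.mem_image.1 h
  rwa [← (fp θ X.x).injective h2]

theorem fp_cycle_mem (hE : Env θ μ P Dd) (hX : OvP μ P X) {s t : Sy} (hs : s ∈ X.x)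
    (h : (fp θ X.x).SameCycle s t) : t ∈ X.x := by
  have h1 : X.x.toFinset.image (fp θ X.x) = X.x.toFinset := by
    apply Finset.eq_of_subset_of_card_le
    · intro t ht
      obtain ⟨u, hu, rfl⟩ := Finset.mem_image.1 ht
      rw [List.mem_toFinset] at hu ⊢
      exact Env.fp_mem hE hX u hu
    · rw [Finset.card_image_of_injective _ (fp θ X.x).injective]
  have h2 : ∀ u, fp θ X.x u ∈ X.x → u ∈ X.x := by
    intro u hu
    rw [← List.mem_toFinset, ← h1] at hu
    obtain ⟨v, hv, h3⟩ := Finset.mem_image.1 hu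
    rw [← (fp θ X.x).injective h3]
    exact List.mem_toFinset.1 hv
  obtain ⟨n, rfl⟩ := h
  induction n using Int.induction_on with
  | zero => simpa using hs
  | succ n ih =>
    rw [add_comm, zpow_add, Perm.mul_apply, zpow_one]
    exact Env.fp_mem hE hX _ ih
  | pred n ih =>
    apply h2
    rw [← Perm.mul_apply, ← zpow_one_add]
    have e : (1 : ℤ) + (-(n : ℤ) - 1) = -(n : ℤ) := by ring
    rw [e]
    exact ih

/-- every live boundary cycle of `X` contains a symbol with owner in `P` -/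
theorem Env.live_own (hE : Env θ μ P Dd) (hX : OvP μ P X) {s : Sy} (hs : s ∈ X.x) (hsD : s ∉ Dd) :
    ∃ t ∈ X.x, (fp θ X.x).SameCycle s t ∧ ∃ p ∈ P, own μ.x X.x t = some p := by
  by_contra hcon
  push Not at hcon
  have h1 : ∀ t, (fp θ X.x).SameCycle s t → t ∈ μ.x ∧ t ∉ P := by
    intro t ht
    have htX := fp_cycle_mem hE hX hs ht
    have htμ : t ∈ μ.x := by
      by_contra h
      obtain ⟨p, hp, h2⟩ := hX.2.2 t htX h
      exact hcon t htX ht p hp h2
    exact ⟨htμ, fun h => hcon t htX ht t h (own_self htμ htX)⟩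
  have h2 : ∀ t, (fp θ X.x).SameCycle s t → fp θ X.x t = fp θ μ.x t := by
    intro t ht
    have h3 : (fp θ X.x).SameCycle s (fp θ X.x t) := Perm.sameCycle_apply_right.2 ht
    have h4 := Env.fp_marker hE hX (h1 t ht).1
    rw [own_self (h1 _ h3).1 (fp_cycle_mem hE hX hs h3)] at h4
    exact Option.some.inj h4
  obtain ⟨p, hp, h3⟩ := hE.live s (h1 s (Perm.SameCycle.refl _ _)).1 hsD
  exact (h1 p ((sameCycle_iff h2 p).1 h3)).2 hp

theorem kp_mu {N : Finset ℕ} (hN : W.nm μ ⊆ N) {s : Sy} (hs : s ∈ μ.x) : kp N s = true := by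
  rcases s with n | ⟨a, e⟩
  · rfl
  · rw [kp_en, decide_eq_true_eq]
    exact hN (List.mem_toFinset.2 ((PW.mem_ord' e).2 hs))

/-- if all symbols of the boundary cycle of `s` in `X` are symbols of the sub word `Y`, then it is
a boundary cycle of `Y` -/
theorem Env.cycle_sub (hE : Env θ μ P Dd) (hX : OvP μ P X) {N : Finset ℕ} (hN : W.nm μ ⊆ N) {s : Sy}
    (hs : s ∈ X.x) (h : ∀ t, (fp θ X.x).SameCycle s t → t ∈ (rsN N X).x) :
    ∀ t, (fp θ (rsN N X).x).SameCycle s t ↔ (fp θ X.x).SameCycle s t := by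
  intro t
  refine sameCycle_iff (fun u hu => ?_) t
  have h1 : u ∈ X.x := fp_cycle_mem hE hX hs hu
  have h2 : kp N u = true := (List.mem_filter.1 (h u hu)).2
  have h3 : kp N (fp θ X.x u) = true :=
    (List.mem_filter.1 (h _ (Perm.sameCycle_apply_right.2 hu))).2
  have h4 : kp N (θ u) = true := by
    by_cases huμ : u ∈ μ.x
    · exact kp_mu hN (hE.pres u huμ)
    · obtain ⟨a, e, rfl, ha, _⟩ := free hX h1 huμ
      rw [hE.flip a ha e]
      exact h2
  exact (formPerm_filter X.nd (Env.theta_mem hE hX u h1) h4 h3).symm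

theorem OvP.self (hE : Env θ μ P Dd) : OvP μ P μ := by
  refine ⟨?_, fun n h => h, fun s hs hs' => absurd hs hs'⟩
  rw [List.filter_eq_self]
  intro a ha
  simpa using ha

theorem over_filter (hX : OvP μ P X) {f : Sy → Bool} (hf : ∀ t ∈ μ.x, f t = true) :
    Over μ.x P (X.x.filter f) := by
  refine ⟨?_, fun n h => hX.2.1 n (List.mem_of_mem_filter h), ?_⟩
  · rw [List.filter_filter]
    refine Eq.trans ?_ hX.1
    refine List.filter_congr fun t _ => ?_
    by_cases ht : t ∈ μ.x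
    · simp [ht, hf t ht]
    · simp [ht]
  · intro s hs hsμ
    rw [List.mem_filter] at hs
    rw [own_filter (fun t ht _ => hf t ht) hs.2]
    exact hX.2.2 s hs.1 hsμ

theorem offA_mu {a : ℕ} (ha : a ∉ μ.ord) {t : Sy} (ht : t ∈ μ.x) : offA a t = true := by
  rw [offA_iff]
  constructor
  · rintro rfl; exact ha ((PW.mem_ord' false).2 ht)
  · rintro rfl; exact ha ((PW.mem_ord' true).2 ht)

theorem OvP.dl (hX : OvP μ P X) {a : ℕ} (ha : a ∉ μ.ord) : OvP μ P (X.dl a) :=
  over_filter hX fun _ ht => offA_mu ha ht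

theorem OvP.own_dl (hX : OvP μ P X) {a : ℕ} (ha : a ∉ μ.ord) {s : Sy} (hs : offA a s = true) :
    own μ.x (X.dl a).x s = own μ.x X.x s :=
  own_filter (fun _ ht _ => offA_mu ha ht) hs

theorem OvP.rsN (hX : OvP μ P X) {N : Finset ℕ} (hN : W.nm μ ⊆ N) : OvP μ P (rsN N X) :=
  over_filter hX fun _ ht => kp_mu hN ht

theorem OvP.own_rsN (hX : OvP μ P X) {N : Finset ℕ} (hN : W.nm μ ⊆ N) {s : Sy} (hs : kp N s = true) :
    own μ.x (TH547.Arc.rsN N X).x s = own μ.x X.x s :=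
  own_filter (fun _ ht _ => kp_mu hN ht) hs

theorem rn_fix {π : Perm ℕ} (hπ : ∀ a ∈ W.nm μ, π a = a) {t : Sy} (ht : t ∈ μ.x) :
    rnS π t = t := by
  rcases t with n | ⟨a, e⟩
  · rfl
  · rw [rnS_en, hπ a (List.mem_toFinset.2 ((PW.mem_ord' e).2 ht))]

theorem rn_map {π : Perm ℕ} (hπ : ∀ a ∈ W.nm μ, π a = a) : μ.x.map (rnS π) = μ.x := by
  conv_rhs => rw [← List.map_id μ.x]
  exact List.map_congr_left fun t ht => rn_fix hπ ht

theorem rn_mem {π : Perm ℕ} (hπ : ∀ a ∈ W.nm μ, π a = a) (t : Sy) : rnS π t ∈ μ.x ↔ t ∈ μ.x := by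
  constructor
  · intro h
    have h1 := rn_fix hπ h
    rwa [(rnS π).injective h1] at h
  · intro h
    rwa [rn_fix hπ h]

theorem OvP.own_rn (hX : OvP μ P X) {π : Perm ℕ} (hπ : ∀ a ∈ W.nm μ, π a = a) (s : Sy) :
    own μ.x (X.rn π).x (rnS π s) = own μ.x X.x s := by
  have h := own_map (μ := μ.x) (x := X.x) (rnS π).injective s
  rw [rn_map hπ] at h
  refine Eq.trans h ?_
  cases h1 : own μ.x X.x s with
  | none => rfl
  | some m =>
    rw [Option.map_some, rn_fix hπ (own_spec h1).1]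

theorem OvP.rn (hX : OvP μ P X) {π : Perm ℕ} (hπ : ∀ a ∈ W.nm μ, π a = a) : OvP μ P (X.rn π) := by
  refine ⟨?_, ?_, ?_⟩
  · show (X.x.map (rnS π)).filter _ = μ.x
    rw [List.filter_map]
    have h1 : X.x.filter ((fun t => decide (t ∈ μ.x)) ∘ (rnS π)) =
        X.x.filter (fun t => decide (t ∈ μ.x)) := by
      refine List.filter_congr fun t _ => ?_
      simp only [Function.comp_apply, decide_eq_decide]
      exact rn_mem hπ t
    rw [h1, hX.1, rn_map hπ]
  · intro n hn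
    obtain ⟨s, hs, h⟩ := List.mem_map.1 hn
    rcases s with m | ⟨a, e⟩
    · rw [rnS_mr] at h
      rw [← h]
      exact hX.2.1 m hs
    · exact absurd h (by simp)
  · intro t ht htμ
    obtain ⟨s, hs, rfl⟩ := List.mem_map.1 ht
    rw [OvP.own_rn hX hπ]
    exact hX.2.2 s hs fun h => htμ ((rn_mem hπ s).2 h)

theorem OvP.insP (hX : OvP μ P X) {c q : Sy} {b : ℕ} (hc : c ∈ X.x) (hq : q ∈ X.x)
    (hcq : c = q ∨ [c, q].Sublist X.x) (hb : b ∉ X.ord) (hbμ : b ∉ μ.ord)
    (hco : ∃ p ∈ P, own μ.x X.x c = some p) (hqo : ∃ p ∈ P, own μ.x X.x q = some p) :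
    OvP μ P (insP c q b X) ∧ own μ.x (TH547.Arc.insP c q b X).x (en b false) = own μ.x X.x c ∧
      own μ.x (TH547.Arc.insP c q b X).x (en b true) = own μ.x X.x q ∧
      ∀ s ∈ X.x, own μ.x (TH547.Arc.insP c q b X).x s = own μ.x X.x s := by
  have h0 : en b false ∉ X.x := fun e => hb ((PW.mem_ord' false).2 e)
  have h1 : en b true ∉ X.x := fun e => hb ((PW.mem_ord' true).2 e)
  have m0 : en b false ∉ μ.x := fun e => hbμ ((PW.mem_ord' false).2 e)
  have m1 : en b true ∉ μ.x := fun e => hbμ ((PW.mem_ord' true).2 e)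
  have nd1 : (insB c (en b false) X.x).Nodup := insB_nd _ _ X.nd h0
  have n1 : en b true ∉ insB c (en b false) X.x := by
    rw [insB_mem]
    rintro (e | ⟨e, _⟩)
    · exact h1 e
    · exact absurd e (by simp)
  have hx := insP_x hc hq hcq hb
  have hq1 : q ∈ insB c (en b false) X.x := (insB_mem _ _ _ _).2 (Or.inl hq)
  have o0 : own μ.x (TH547.Arc.insP c q b X).x (en b false) = own μ.x X.x c := by
    rw [hx]
    unfold ins2
    rw [own_insB_old nd1 n1 ((insB_mem _ _ _ _).2 (Or.inr ⟨rfl, hc⟩)) m1,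
      own_insB_new X.nd h0 hc m0]
  have o1 : own μ.x (TH547.Arc.insP c q b X).x (en b true) = own μ.x X.x q := by
    rw [hx]
    unfold ins2
    rw [own_insB_new nd1 n1 hq1 m1, own_insB_old X.nd h0 hq m0]
  have o2 : ∀ s ∈ X.x, own μ.x (TH547.Arc.insP c q b X).x s = own μ.x X.x s := by
    intro s hs
    rw [hx]
    unfold ins2
    rw [own_insB_old nd1 n1 ((insB_mem _ _ _ _).2 (Or.inl hs)) m1, own_insB_old X.nd h0 hs m0]
  have hmem : ∀ s, s ∈ (TH547.Arc.insP c q b X).x → s ∈ X.x ∨ s = en b false ∨ s = en b true := by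
    intro s hs
    rw [hx] at hs
    unfold ins2 at hs
    rcases (insB_mem _ _ _ _).1 hs with h | ⟨h, _⟩
    · rcases (insB_mem _ _ _ _).1 h with h | ⟨h, _⟩
      · exact Or.inl h
      · exact Or.inr (Or.inl h)
    · exact Or.inr (Or.inr h)
  refine ⟨⟨?_, ?_, ?_⟩, o0, o1, o2⟩
  · rw [hx]
    unfold ins2
    rw [insB_filter_neg _ _ (by simpa using m1), insB_filter_neg _ _ (by simpa using m0), hX.1]
  · intro n hn
    rcases hmem _ hn with h | h | h
    · exact hX.2.1 n h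
    · exact absurd h (by simp)
    · exact absurd h (by simp)
  · intro s hs hsμ
    rcases hmem _ hs with h | rfl | rfl
    · rw [o2 s h]
      exact hX.2.2 s h hsμ
    · rw [o0]; exact hco
    · rw [o1]; exact hqo
end

/-- renaming invariance of the face structure -/
theorem Env.rn_theta {θ : Perm Sy} {μ : PW} {P Dd : Finset Sy} (hE : Env θ μ P Dd) {π : Perm ℕ}
    (hπ : ∀ a ∈ W.nm μ, π a = a) : rnS π * θ = θ * rnS π := by
  ext s
  rw [Perm.mul_apply, Perm.mul_apply]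
  by_cases hs : s ∈ μ.x
  · rw [rn_fix hπ hs, rn_fix hπ (hE.pres s hs)]
  · rcases s with n | ⟨a, e⟩
    · rw [rnS_mr]
      -- `θ (mr n)` is a marker
      have himg : μ.x.toFinset.image θ = μ.x.toFinset := by
        apply Finset.eq_of_subset_of_card_le
        · intro t ht
          obtain ⟨u, hu, rfl⟩ := Finset.mem_image.1 ht
          rw [List.mem_toFinset] at hu ⊢
          exact hE.pres u hu
        · rw [Finset.card_image_of_injective _ θ.injective]
      rcases h : θ (mr n) with m | ⟨a, e⟩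
      · rfl
      · exfalso
        by_cases ha : a ∈ μ.ord
        · have h1 : en a e ∈ μ.x.toFinset := List.mem_toFinset.2 ((PW.mem_ord' e).1 ha)
          rw [← himg] at h1
          obtain ⟨u, hu, h2⟩ := Finset.mem_image.1 h1
          rw [← h] at h2
          rw [θ.injective h2] at hu
          exact hs (List.mem_toFinset.1 hu)
        · have h1 := hE.flip a ha (!e)
          rw [Bool.not_not, ← h] at h1
          exact absurd (θ.injective h1) (by simp)
    · have ha : a ∉ μ.ord := fun h => hs ((PW.mem_ord' e).1 h)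
      have ha' : π a ∉ μ.ord := by
        intro h
        have h1 := hπ (π a) (List.mem_toFinset.2 h)
        rw [π.injective h1] at h
        exact ha h
      rw [hE.flip a ha e, rnS_en, rnS_en, hE.flip (π a) ha' e]

theorem fp_rn {θ : Perm Sy} {μ : PW} {P Dd : Finset Sy} (hE : Env θ μ P Dd) {π : Perm ℕ}
    (hπ : ∀ a ∈ W.nm μ, π a = a) (X : PW) :
    fp θ (X.rn π).x = rnS π * fp θ X.x * (rnS π)⁻¹ := by
  have h := Env.rn_theta hE hπ
  have h1 : (rnS π)⁻¹ * θ = θ * (rnS π)⁻¹ := by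
    rw [inv_mul_eq_iff_eq_mul, ← mul_assoc, h, mul_assoc, mul_inv_cancel, mul_one]
  unfold fp
  show (X.x.map (rnS π)).formPerm * θ = _
  rw [formPerm_map, mul_assoc, h1]
  group

theorem Env.rn_sc {θ : Perm Sy} {μ : PW} {P Dd : Finset Sy} (hE : Env θ μ P Dd) {π : Perm ℕ}
    (hπ : ∀ a ∈ W.nm μ, π a = a) (X : PW) (s t : Sy) :
    (fp θ (X.rn π).x).SameCycle (rnS π s) (rnS π t) ↔ (fp θ X.x).SameCycle s t := by
  rw [fp_rn hE hπ, Perm.sameCycle_conj]
  show (fp θ X.x).SameCycle ((rnS π).symm (rnS π s)) ((rnS π).symm (rnS π t)) ↔ _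
  rw [Equiv.symm_apply_apply, Equiv.symm_apply_apply]

open Classical in
theorem ncy_conj {α : Type} (g σ τ : Perm α) (A : Finset α)
    (h : ∀ s t, τ.SameCycle (g s) (g t) ↔ σ.SameCycle s t) :
    ncy τ (A.map g.toEmbedding) = ncy σ A := by
  unfold ncy
  have h1 : (A.map g.toEmbedding).image
      (fun s => (A.map g.toEmbedding).filter (fun t => τ.SameCycle s t)) =
      (A.image (fun s => A.filter (fun t => σ.SameCycle s t))).image
        (fun B => B.map g.toEmbedding) := by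
    rw [Finset.map_eq_image, Finset.image_image, Finset.image_image]
    refine Finset.image_congr fun s _ => ?_
    simp only [Function.comp_apply]
    ext t
    simp only [Finset.mem_filter, Finset.mem_image, Finset.mem_map, Equiv.coe_toEmbedding]
    constructor
    · rintro ⟨⟨u, hu, rfl⟩, h'⟩
      exact ⟨u, ⟨hu, (h s u).1 h'⟩, rfl⟩
    · rintro ⟨u, ⟨hu, h'⟩, rfl⟩
      exact ⟨⟨u, hu, rfl⟩, (h s u).2 h'⟩
  rw [h1, Finset.card_image_of_injective]
  exact Finset.map_injective _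

theorem Env.rn_nf {θ : Perm Sy} {μ : PW} {P Dd : Finset Sy} (hE : Env θ μ P Dd) {π : Perm ℕ}
    (hπ : ∀ a ∈ W.nm μ, π a = a) (X : PW) : nf θ Dd (X.rn π).x = nf θ Dd X.x := by
  have hset : (X.rn π).x.toFinset \ Dd = (X.x.toFinset \ Dd).map (rnS π).toEmbedding := by
    have hD : ∀ t, rnS π t ∈ Dd ↔ t ∈ Dd := by
      intro t
      constructor
      · intro h
        have h1 := rn_fix hπ (hE.dsub _ h)
        rwa [(rnS π).injective h1] at h
      · intro h
        rwa [rn_fix hπ (hE.dsub _ h)]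
    ext t
    simp only [Finset.mem_sdiff, List.mem_toFinset, Finset.mem_map, Equiv.coe_toEmbedding]
    constructor
    · rintro ⟨h1, h2⟩
      obtain ⟨s, hs, rfl⟩ := List.mem_map.1 h1
      exact ⟨s, ⟨hs, fun h => h2 ((hD s).2 h)⟩, rfl⟩
    · rintro ⟨s, ⟨h1, h2⟩, rfl⟩
      exact ⟨List.mem_map.2 ⟨s, h1, rfl⟩, fun h => h2 ((hD s).1 h)⟩
  unfold nf
  rw [hset]
  exact ncy_conj _ _ _ _ fun s t => Env.rn_sc hE hπ X s t

end Pool.Agent.TH628.J873
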