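import Pool.Agent.TH547.Arc.Mark2
import Pool.Agent.TH286.J761
import Pool.Agent.TH286.J762
import Pool.Agent.TH286.J795
import Pool.Agent.TH628.J873
set_option autoImplicit false
namespace Pool.Agent.TH628.J905
open Pool.Agent.TH547.Arc
open Pool.Agent.TH286.J795
open Pool.Agent.TH628.J873
open Finset Equiv

theorem delM_x (n : ℕ) (X : PW) : (delM n X).x = X.x.filter (fun s => decide (s ≠ mr n)) := rfl
theorem clrM_x (N0 : ℕ) (X : PW) : (clrM N0 X).x = X.x.filter (nax N0) := rfl
theorem dl_x (a : ℕ) (X : PW) : (X.dl a).x = X.x.filter (offA a) := rfl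
theorem rn_x (π : Perm ℕ) (X : PW) : (X.rn π).x = X.x.map (rnS π) := rfl

theorem insM_mem_eq {t : Sy} {n : ℕ} {X : PW} (h : mr n ∈ X.x) : insM t n X = X := by
  unfold insM
  rw [dif_neg (not_not.2 h)]

theorem filter_ne_self {x : List Sy} {s : Sy} (h : s ∉ x) :
    x.filter (fun u => decide (u ≠ s)) = x := by
  rw [List.filter_eq_self]
  intro v hv
  have : v ≠ s := fun e => h (e ▸ hv)
  simpa using this

theorem delM_insM (t : Sy) (n : ℕ) {X : PW} (h : mr n ∉ X.x) : delM n (insM t n X) = X := by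
  apply PW.ext
  rw [delM_x, insM_x h, insB_filter_neg X.x _ (by simp), filter_ne_self h]

theorem mem_delM {n : ℕ} {X : PW} {s : Sy} : s ∈ (delM n X).x ↔ s ∈ X.x ∧ s ≠ mr n := by
  rw [delM_x, List.mem_filter, decide_eq_true_eq]

theorem mem_insM {t : Sy} {n : ℕ} {X : PW} (ht : t ∈ X.x) {s : Sy} :
    s ∈ (insM t n X).x ↔ s ∈ X.x ∨ s = mr n := by
  by_cases h : mr n ∈ X.x
  · rw [insM_mem_eq h]
    constructor
    · exact Or.inl
    · rintro (h1 | rfl)
      · exact h1
      · exact h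
  · rw [insM_x h, insB_mem]
    tauto

theorem filterMap_filter_fname (x : List Sy) {f : Sy → Bool}
    (hf : ∀ s, f s = false → fname s = none) :
    (x.filter f).filterMap fname = x.filterMap fname := by
  induction x with
  | nil => rfl
  | cons u x ih =>
    cases h : f u with
    | true =>
      rw [List.filter_cons_of_pos h]
      cases h1 : fname u with
      | none => rw [List.filterMap_cons_none h1, List.filterMap_cons_none h1, ih]
      | some a => rw [List.filterMap_cons_some h1, List.filterMap_cons_some h1, ih]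
    | false =>
      rw [List.filter_cons_of_neg (by simp [h]), List.filterMap_cons_none (hf u h), ih]

theorem ord_delM (n : ℕ) (X : PW) : (delM n X).ord = X.ord := by
  refine filterMap_filter_fname X.x ?_
  intro s hs
  have : s = mr n := by simpa using hs
  rw [this]; rfl

theorem ord_insM (t : Sy) (n : ℕ) (X : PW) : (insM t n X).ord = X.ord := by
  by_cases h : mr n ∈ X.x
  · rw [insM_mem_eq h]
  · rw [← ord_delM n (insM t n X), delM_insM t n h]

theorem nax_false {N0 : ℕ} {s : Sy} (h : nax N0 s = false) : ∃ n, N0 ≤ n ∧ s = mr n := by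
  rcases s with n | ⟨a, e⟩
  · refine ⟨n, ?_, rfl⟩
    have : ¬ n < N0 := of_decide_eq_false h
    omega
  · exact absurd h (by simp [nax])

theorem ord_clrM (N0 : ℕ) (X : PW) : (clrM N0 X).ord = X.ord := by
  refine filterMap_filter_fname X.x ?_
  intro s hs
  obtain ⟨n, _, rfl⟩ := nax_false hs
  rfl

theorem filter_comm' (x : List Sy) (f g : Sy → Bool) :
    (x.filter f).filter g = (x.filter g).filter f := by
  rw [List.filter_filter, List.filter_filter]
  refine List.filter_congr fun s _ => Bool.and_comm _ _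

theorem dl_delM (n : ℕ) (X : PW) (a : ℕ) : (delM n X).dl a = delM n (X.dl a) := by
  apply PW.ext
  rw [dl_x, delM_x, delM_x, dl_x, filter_comm']

theorem dl_clrM (N0 : ℕ) (X : PW) (a : ℕ) : (clrM N0 X).dl a = clrM N0 (X.dl a) := by
  apply PW.ext
  rw [dl_x, clrM_x, clrM_x, dl_x, filter_comm']

theorem dl_insM {t : Sy} (n : ℕ) (X : PW) {a : ℕ} (h : offA a t = true) :
    (insM t n X).dl a = insM t n (X.dl a) := by
  apply PW.ext
  by_cases hm : mr n ∈ X.x
  · have hm' : mr n ∈ (X.dl a).x := by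
      rw [dl_x, List.mem_filter]
      exact ⟨hm, offA_mr a n⟩
    rw [insM_mem_eq hm, insM_mem_eq hm']
  · have hm' : mr n ∉ (X.dl a).x := fun h' => hm (List.mem_of_mem_filter h')
    rw [dl_x, insM_x hm, insM_x hm', dl_x, insB_filter_pos _ _ h (offA_mr a n)]

theorem rn_delM (n : ℕ) (X : PW) (π : Perm ℕ) : (delM n X).rn π = delM n (X.rn π) := by
  apply PW.ext
  rw [rn_x, delM_x, delM_x, rn_x, List.filter_map]
  congr 1
  refine List.filter_congr fun s _ => ?_
  rw [Function.comp_apply, decide_eq_decide]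
  rw [not_iff_not]
  constructor
  · rintro rfl; rfl
  · intro h
    exact (rnS π).injective h

theorem rn_clrM (N0 : ℕ) (X : PW) (π : Perm ℕ) : (clrM N0 X).rn π = clrM N0 (X.rn π) := by
  apply PW.ext
  rw [rn_x, clrM_x, clrM_x, rn_x, List.filter_map]
  congr 1
  refine List.filter_congr fun s _ => ?_
  rcases s with n | ⟨a, e⟩ <;> rfl

theorem rn_insM (t : Sy) (n : ℕ) (X : PW) (π : Perm ℕ) :
    (insM t n X).rn π = insM (rnS π t) n (X.rn π) := by
  apply PW.ext
  by_cases hm : mr n ∈ X.x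
  · have hm' : mr n ∈ (X.rn π).x := List.mem_map.2 ⟨_, hm, rfl⟩
    rw [insM_mem_eq hm, insM_mem_eq hm']
  · have hm' : mr n ∉ (X.rn π).x := by
      intro h
      obtain ⟨s, hs, h1⟩ := List.mem_map.1 h
      have h2 : s = mr n := (rnS π).injective h1
      exact hm (h2 ▸ hs)
    rw [rn_x, insM_x hm, insM_x hm', rn_x, insB_map _ (rnS π).injective, rnS_mr]


/-! ### removing fixed symbols -/

theorem formPerm_rem {x : List Sy} (hx : x.Nodup) {m : Sy} (hm : m ∈ x)
    (hne : ∃ s ∈ x, s ≠ m) :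
    ∃ t ∈ x, t ≠ m ∧ x.formPerm = swap m t * (x.filter (fun u => decide (u ≠ m))).formPerm := by
  obtain ⟨l1, l2, h1, rfl⟩ := first_occ hm
  have h2 : m ∉ l2 := (List.nodup_cons.1 (List.Nodup.of_append_right hx)).1
  have hf : (l1 ++ m :: l2).filter (fun u => decide (u ≠ m)) = l1 ++ l2 := by
    rw [List.filter_append, List.filter_cons_of_neg (by simp), filter_ne_self h1,
      filter_ne_self h2]
  have hnd : (l1 ++ l2).Nodup := hf ▸ hx.filter _
  rw [hf]
  rw [List.formPerm_eq_of_isRotated hx (List.isRotated_append (l := l1) (l' := m :: l2)),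
    List.formPerm_eq_of_isRotated hnd (List.isRotated_append (l := l1) (l' := l2)),
    List.cons_append]
  cases h : l2 ++ l1 with
  | nil =>
    rw [List.append_eq_nil_iff] at h
    obtain ⟨rfl, rfl⟩ := h
    obtain ⟨s, hs, hsm⟩ := hne
    simp at hs
    exact absurd hs hsm
  | cons t r =>
    have ht : t ∈ l2 ++ l1 := by rw [h]; simp
    refine ⟨t, ?_, ?_, List.formPerm_cons_cons m t r⟩
    · rw [List.mem_append] at ht
      rw [List.mem_append, List.mem_cons]
      tauto
    · rintro rfl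
      rw [List.mem_append] at ht
      tauto

/-- the sets of symbols which are used below -/
structure Good (θ : Perm Sy) (Dd : Finset Sy) (x : List Sy) : Prop where
  nd : x.Nodup
  th : ∀ s ∈ x, θ s ∈ x
  inv : ∀ s ∈ x, s ∉ Dd → fp θ x s ∉ Dd

open Classical in
theorem ncy_congr {α : Type} {σ τ : Perm α} {A B : Finset α} (hBA : B ⊆ A)
    (h : ∀ s ∈ B, ∀ t ∈ B, (τ.SameCycle s t ↔ σ.SameCycle s t))
    (hm : ∀ s ∈ A, ∃ t ∈ B, σ.SameCycle s t) : ncy τ B = ncy σ A := by
  unfold ncy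
  have h1 : B.image (fun s => B.filter (fun t => τ.SameCycle s t)) =
      (A.image (fun s => A.filter (fun t => σ.SameCycle s t))).image (fun C => C ∩ B) := by
    ext C
    simp only [Finset.mem_image]
    constructor
    · rintro ⟨s, hs, rfl⟩
      refine ⟨_, ⟨s, hBA hs, rfl⟩, ?_⟩
      ext t
      rw [Finset.mem_inter, Finset.mem_filter, Finset.mem_filter]
      constructor
      · rintro ⟨⟨_, h2⟩, h3⟩
        exact ⟨h3, (h s hs t h3).2 h2⟩
      · rintro ⟨h3, h2⟩
        exact ⟨⟨hBA h3, (h s hs t h3).1 h2⟩, h3⟩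
    · rintro ⟨_, ⟨s, hs, rfl⟩, rfl⟩
      obtain ⟨t, ht, hst⟩ := hm s hs
      refine ⟨t, ht, ?_⟩
      ext u
      rw [Finset.mem_inter, Finset.mem_filter, Finset.mem_filter]
      constructor
      · rintro ⟨h3, h2⟩
        exact ⟨⟨hBA h3, hst.trans ((h t ht u h3).1 h2)⟩, h3⟩
      · rintro ⟨⟨_, h2⟩, h3⟩
        exact ⟨h3, (h t ht u h3).2 (hst.symm.trans h2)⟩
  rw [h1, Finset.card_image_of_injOn]
  intro C hC C' hC' he
  obtain ⟨s, hs, rfl⟩ := Finset.mem_image.1 (Finset.mem_coe.1 hC)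
  obtain ⟨s', hs', rfl⟩ := Finset.mem_image.1 (Finset.mem_coe.1 hC')
  obtain ⟨t, ht, hst⟩ := hm s hs
  have h2 : t ∈ A.filter (fun t => σ.SameCycle s t) ∩ B :=
    Finset.mem_inter.2 ⟨Finset.mem_filter.2 ⟨hBA ht, hst⟩, ht⟩
  have he' : A.filter (fun t => σ.SameCycle s t) ∩ B = A.filter (fun t => σ.SameCycle s' t) ∩ B := he
  rw [he'] at h2
  have h3 : σ.SameCycle s' t := (Finset.mem_filter.1 (Finset.mem_inter.1 h2).1).2
  ext u
  rw [Finset.mem_filter, Finset.mem_filter]
  refine and_congr_right fun _ => ?_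
  exact ⟨fun k => h3.trans (hst.symm.trans k), fun k => hst.trans (h3.symm.trans k)⟩

section
variable {θ : Perm Sy} {Dd : Finset Sy} {x : List Sy}

theorem fp_inv_mem (hx : ∀ s ∈ x, θ s ∈ x) : ∀ s ∈ x.toFinset, fp θ x s ∈ x.toFinset := by
  intro s hs
  rw [List.mem_toFinset] at hs ⊢
  exact List.formPerm_apply_mem_of_mem (hx s hs)

/-- removing one fixed symbol -/
theorem rem_one (hnd : x.Nodup) (hx : ∀ s ∈ x, θ s ∈ x) {m : Sy} (hm : m ∈ x) (hθ : θ m = m)
    (hne : ∃ s ∈ x, s ≠ m) :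
    ∃ t ∈ x, t ≠ m ∧ fp θ x = swap m t * fp θ (x.filter (fun u => decide (u ≠ m))) ∧
      (∀ s, (fp θ (x.filter (fun u => decide (u ≠ m)))).SameCycle m s ↔ s = m) ∧
      fp θ x m = t ∧
      ∀ s t, s ≠ m → t ≠ m →
        ((fp θ (x.filter (fun u => decide (u ≠ m)))).SameCycle s t ↔ (fp θ x).SameCycle s t) := by
  obtain ⟨t0, ht0, htm, hfp⟩ := formPerm_rem hnd hm hne
  have hmy : m ∉ x.filter (fun u => decide (u ≠ m)) := by
    rw [List.mem_filter]; simp
  have hfix : fp θ (x.filter (fun u => decide (u ≠ m))) m = m := by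
    unfold fp
    rw [Perm.mul_apply, hθ]
    exact List.formPerm_apply_of_notMem hmy
  have hfx : fp θ x = swap m t0 * fp θ (x.filter (fun u => decide (u ≠ m))) := by
    unfold fp
    rw [hfp, mul_assoc]
  have hsc : ∀ s, (fp θ (x.filter (fun u => decide (u ≠ m)))).SameCycle m s ↔ s = m := by
    intro s
    constructor
    · rintro ⟨i, hi⟩
      rw [Perm.zpow_apply_eq_self_of_apply_eq_self hfix] at hi
      exact hi.symm
    · rintro rfl
      exact Perm.SameCycle.refl _ _
  refine ⟨t0, ht0, htm, hfx, hsc, ?_, ?_⟩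
  · rw [hfx, Perm.mul_apply, hfix, swap_apply_left]
  · intro s t hs ht
    have hA : ∀ u ∈ x.toFinset, fp θ (x.filter (fun u => decide (u ≠ m))) u ∈ x.toFinset := by
      intro u hu
      rw [List.mem_toFinset] at hu ⊢
      unfold fp
      rw [Perm.mul_apply]
      by_cases h : θ u ∈ x.filter (fun u => decide (u ≠ m))
      · exact List.mem_of_mem_filter (List.formPerm_apply_mem_of_mem h)
      · rw [List.formPerm_apply_of_notMem h]
        exact hx u hu
    have hmt : ¬ (fp θ (x.filter (fun u => decide (u ≠ m)))).SameCycle m t0 := by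
      rw [hsc]; exact htm
    have h1 := TH286.J761.sc_merge _ x.toFinset hA (List.mem_toFinset.2 hm)
      (List.mem_toFinset.2 ht0) hmt s t
    rw [hfx, h1, hsc, hsc]
    constructor
    · exact Or.inl
    · rintro (h | ⟨h2, h3⟩)
      · exact h
      · rcases h2 with h2 | h2
        · exact absurd h2 hs
        · rcases h3 with h3 | h3
          · exact absurd h3 ht
          · exact h2.symm.trans h3

theorem rem_good (hG : Good θ Dd x) {m : Sy} (hθ : θ m = m) (hD : m ∉ Dd)
    (hne : ∃ s ∈ x, s ≠ m) :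
    Good θ Dd (x.filter (fun u => decide (u ≠ m))) ∧
    (∀ s ∈ x.filter (fun u => decide (u ≠ m)), ∀ t ∈ x.filter (fun u => decide (u ≠ m)),
      ((fp θ (x.filter (fun u => decide (u ≠ m)))).SameCycle s t ↔ (fp θ x).SameCycle s t)) ∧
    nf θ Dd (x.filter (fun u => decide (u ≠ m))) = nf θ Dd x := by
  by_cases hm : m ∈ x
  swap
  · rw [filter_ne_self hm]
    exact ⟨hG, fun _ _ _ _ => Iff.rfl, rfl⟩
  obtain ⟨t0, ht0, htm, hfx, hsc, hfm, hss⟩ := rem_one hG.nd hG.th hm hθ hne
  have hmem : ∀ s, s ∈ x.filter (fun u => decide (u ≠ m)) ↔ s ∈ x ∧ s ≠ m := by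
    intro s
    rw [List.mem_filter, decide_eq_true_eq]
  have ht0D : t0 ∉ Dd := hfm ▸ hG.inv m hm hD
  refine ⟨⟨hG.nd.filter _, ?_, ?_⟩, ?_, ?_⟩
  · intro s hs
    rw [hmem] at hs ⊢
    refine ⟨hG.th s hs.1, fun h => hs.2 ?_⟩
    rw [← hθ] at h
    exact θ.injective h
  · intro s hs hsD
    rw [hmem] at hs
    have h1 : fp θ (x.filter (fun u => decide (u ≠ m))) s = swap m t0 (fp θ x s) := by
      rw [hfx, Perm.mul_apply, swap_apply_self]
    rw [h1]
    by_cases h2 : fp θ x s = m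
    · rw [h2, swap_apply_left]; exact ht0D
    by_cases h3 : fp θ x s = t0
    · rw [h3, swap_apply_right]; exact hD
    rw [swap_apply_of_ne_of_ne h2 h3]
    exact hG.inv s hs.1 hsD
  · intro s hs t ht
    exact hss s t ((hmem s).1 hs).2 ((hmem t).1 ht).2
  · unfold nf
    apply ncy_congr
    · intro s hs
      rw [Finset.mem_sdiff, List.mem_toFinset] at hs ⊢
      exact ⟨((hmem s).1 hs.1).1, hs.2⟩
    · intro s hs t ht
      rw [Finset.mem_sdiff, List.mem_toFinset, hmem] at hs ht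
      exact hss s t hs.1.2 ht.1.2
    · intro s hs
      rw [Finset.mem_sdiff, List.mem_toFinset] at hs
      by_cases hsm : s = m
      · refine ⟨t0, ?_, ?_⟩
        · rw [Finset.mem_sdiff, List.mem_toFinset, hmem]
          exact ⟨⟨ht0, htm⟩, ht0D⟩
        · rw [hsm, ← hfm]
          exact TH286.J761.sc_step _ _
      · refine ⟨s, ?_, Perm.SameCycle.refl _ _⟩
        rw [Finset.mem_sdiff, List.mem_toFinset, hmem]
        exact ⟨⟨hs.1, hsm⟩, hs.2⟩

theorem rems_good (hG : Good θ Dd x) (L : List Sy) (hL : ∀ m ∈ L, θ m = m ∧ m ∉ Dd)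
    (hne : ∃ s ∈ x, s ∉ L) :
    Good θ Dd (x.filter (fun u => decide (u ∉ L))) ∧
    (∀ s ∈ x.filter (fun u => decide (u ∉ L)), ∀ t ∈ x.filter (fun u => decide (u ∉ L)),
      ((fp θ (x.filter (fun u => decide (u ∉ L)))).SameCycle s t ↔ (fp θ x).SameCycle s t)) ∧
    nf θ Dd (x.filter (fun u => decide (u ∉ L))) = nf θ Dd x := by
  induction L generalizing x with
  | nil =>
    have h : x.filter (fun u => decide (u ∉ ([] : List Sy))) = x := by
      rw [List.filter_eq_self]
      intro a _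
      simp
    rw [h]
    exact ⟨hG, fun _ _ _ _ => Iff.rfl, rfl⟩
  | cons m L ih =>
    obtain ⟨s0, hs0, hsL⟩ := hne
    rw [List.mem_cons, not_or] at hsL
    obtain ⟨g1, g2, g3⟩ := rem_good hG (hL m (by simp)).1 (hL m (by simp)).2 ⟨s0, hs0, hsL.1⟩
    have hs0' : s0 ∈ x.filter (fun u => decide (u ≠ m)) := by
      rw [List.mem_filter, decide_eq_true_eq]
      exact ⟨hs0, hsL.1⟩
    have h := ih g1 (fun m' hm' => hL m' (List.mem_cons_of_mem _ hm')) ⟨s0, hs0', hsL.2⟩
    have he : (x.filter (fun u => decide (u ≠ m))).filter (fun u => decide (u ∉ L)) =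
        x.filter (fun u => decide (u ∉ m :: L)) := by
      rw [List.filter_filter]
      refine List.filter_congr fun u _ => ?_
      rw [Bool.eq_iff_iff]
      simp only [Bool.and_eq_true, decide_eq_true_eq, List.mem_cons, not_or]
      tauto
    rw [he] at h
    refine ⟨h.1, ?_, h.2.2.trans g3⟩
    intro s hs t ht
    rw [h.2.1 s hs t ht]
    refine g2 s ?_ t ?_
    · rw [← he] at hs
      exact List.mem_of_mem_filter hs
    · rw [← he] at ht
      exact List.mem_of_mem_filter ht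
end

/-- removing a marker fixed by `θ` does not change the boundary cycles -/
theorem delM_sc {θ : Perm Sy} {X : PW} {n : ℕ} (hX : ∀ s ∈ X.x, θ s ∈ X.x)
    (hθ : θ (mr n) = mr n) {s t : Sy} (hs : s ∈ (delM n X).x) (ht : t ∈ (delM n X).x) :
    (fp θ (delM n X).x).SameCycle s t ↔ (fp θ X.x).SameCycle s t := by
  rw [mem_delM] at hs ht
  by_cases hm : mr n ∈ X.x
  · obtain ⟨t0, _, _, _, _, _, hss⟩ := rem_one X.nd hX hm hθ ⟨s, hs⟩
    exact hss s t hs.2 ht.2
  · rw [delM_x, filter_ne_self hm]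

theorem delM_nf {θ : Perm Sy} {Dd : Finset Sy} {X : PW} {n : ℕ} (hX : ∀ s ∈ X.x, θ s ∈ X.x)
    (hθ : θ (mr n) = mr n) (hnD : mr n ∉ Dd)
    (hinv : ∀ s ∈ X.x, s ∉ Dd → fp θ X.x s ∉ Dd) (hne : ∃ s ∈ X.x, s ≠ mr n) :
    nf θ Dd (delM n X).x = nf θ Dd X.x :=
  (rem_good ⟨X.nd, hX, hinv⟩ hθ hnD hne).2.2

/-- the new marker lies on the boundary cycle of the next symbol -/
theorem insM_sc {θ : Perm Sy} {X : PW} {n : ℕ} {t : Sy} (ht : t ∈ X.x) (hn : mr n ∉ X.x)
    (hθ : θ (mr n) = mr n) : (fp θ (insM t n X).x).SameCycle (mr n) t := by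
  refine ⟨1, ?_⟩
  rw [zpow_one, insM_x hn]
  unfold fp
  rw [Perm.mul_apply, hθ, TH286.J762.formPerm_insB _ _ _ X.nd ht hn, Perm.mul_apply,
    List.formPerm_apply_of_notMem hn, swap_apply_left]

/-- the list underlying `muL` -/
theorem muL_x {p : Sy} {μ : PW} {l : List ℕ} (hl : l.Nodup) (hf : ∀ n ∈ l, mr n ∉ μ.x)
    {l1 l2 : List Sy} (h : μ.x = l1 ++ p :: l2) :
    (muL p μ l).x = l1 ++ (l.map Sy.mr ++ p :: l2) := by
  induction l generalizing μ l1 with
  | nil => exact h
  | cons n l ih =>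
    have hn : mr n ∉ μ.x := hf n (by simp)
    have hnd := μ.nd
    rw [h] at hnd
    have h1 : p ∉ l1 := fun h' => by
      have := List.disjoint_of_nodup_append hnd h'
      simp at this
    have h2 : p ∉ l2 := (List.nodup_cons.1 (List.Nodup.of_append_right hnd)).1
    have h3 : (insM p n μ).x = (l1 ++ [mr n]) ++ p :: l2 := by
      rw [insM_x hn, h, insB_split _ h1 h2]
      simp
    have h4 : ∀ k ∈ l, mr k ∉ (insM p n μ).x := by
      intro k hk h'
      rw [mem_insM (by rw [h]; simp)] at h'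
      rcases h' with h' | h'
      · exact hf k (List.mem_cons_of_mem _ hk) h'
      · have : k = n := by simpa using h'
        subst this
        exact (List.nodup_cons.1 hl).1 hk
    show (muL p (insM p n μ) l).x = _
    rw [ih (List.nodup_cons.1 hl).2 h4 h3]
    simp


/-! ### environments with auxiliary markers -/

theorem Env.insM1 {θ : Perm Sy} {μ : PW} {P Dd : Finset Sy} (hE : Env θ μ P Dd) {p : Sy}
    (hp : p ∈ P) {n : ℕ} (hn : mr n ∉ μ.x) (hθ : θ (mr n) = mr n) :
    Env θ (insM p n μ) (insert (mr n) P) Dd := by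
  have hpx : p ∈ μ.x := (hE.sub p hp).1
  have hmem : ∀ s, s ∈ (insM p n μ).x ↔ s ∈ μ.x ∨ s = mr n := fun s => mem_insM hpx
  have hpres : ∀ s ∈ (insM p n μ).x, θ s ∈ (insM p n μ).x := by
    intro s hs
    rw [hmem] at hs ⊢
    rcases hs with hs | rfl
    · exact Or.inl (hE.pres s hs)
    · exact Or.inr hθ
  have hpn : p ≠ mr n := fun e => hn (e ▸ hpx)
  refine ⟨?_, hpres, ?_, ?_, ?_, ?_, ?_, ?_⟩
  · rw [ord_insM]
    exact hE.flip
  · obtain ⟨l, k, hl⟩ := hE.last
    obtain ⟨l1, l2, h1, h2⟩ := first_occ hpx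
    have hnd := μ.nd
    rw [h2] at hnd
    have h3 : p ∉ l2 := (List.nodup_cons.1 (List.Nodup.of_append_right hnd)).1
    rw [insM_x hn, h2, insB_split _ h1 h3]
    rw [h2] at hl
    rcases List.eq_nil_or_concat l2 with rfl | ⟨l3, u, rfl⟩
    · have := List.append_inj_right' hl rfl
      simp only [List.cons.injEq, and_true] at this
      subst this
      exact ⟨l1 ++ [mr n], k, by simp⟩
    · rw [List.concat_eq_append] at hl ⊢
      have h4 : l1 ++ p :: (l3 ++ [u]) = (l1 ++ p :: l3) ++ [u] := by simp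
      rw [h4] at hl
      have := List.append_inj_right' hl rfl
      simp only [List.cons.injEq, and_true] at this
      subst this
      exact ⟨l1 ++ mr n :: p :: l3, k, by simp⟩
  · intro s hs
    rw [hmem]
    rcases Finset.mem_insert.1 hs with rfl | hs
    · exact ⟨Or.inr rfl, fun h => hn (hE.dsub _ h)⟩
    · exact ⟨Or.inl (hE.sub s hs).1, (hE.sub s hs).2⟩
  · intro s hs
    rw [hmem]
    exact Or.inl (hE.dsub s hs)
  · intro s hs
    have h1 := hE.dinv s hs
    have h2 : fp θ (insM p n μ).x s = swap (mr n) p (fp θ μ.x s) := by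
      rw [insM_x hn]
      unfold fp
      rw [TH286.J762.formPerm_insB _ _ _ μ.nd hpx hn]
      rfl
    rw [h2, swap_apply_of_ne_of_ne]
    · exact h1
    · intro h; exact hn (h ▸ hE.dsub _ h1)
    · intro h; exact (hE.sub p hp).2 (h ▸ h1)
  · intro s hs hsD
    rw [hmem] at hs
    rcases hs with hs | rfl
    · obtain ⟨q, hq, h⟩ := hE.live s hs hsD
      refine ⟨q, Finset.mem_insert_of_mem hq, ?_⟩
      have hqx := (hE.sub q hq).1
      have h1 : s ∈ (delM n (insM p n μ)).x := by rw [delM_insM p n hn]; exact hs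
      have h2 : q ∈ (delM n (insM p n μ)).x := by rw [delM_insM p n hn]; exact hqx
      rw [← delM_sc hpres hθ h1 h2, delM_insM p n hn]
      exact h
    · exact ⟨mr n, Finset.mem_insert_self _ _, Perm.SameCycle.refl _ _⟩
  · exact ⟨mr n, Finset.mem_insert_self _ _⟩

theorem Env.good {θ : Perm Sy} {μ : PW} {P Dd : Finset Sy} (hE : Env θ μ P Dd) {X : PW}
    (hX : OvP μ P X) : Good θ Dd X.x :=
  ⟨X.nd, Env.theta_mem hE hX, fun s hs hsD => (Env.fp_inv hE hX s hs hsD).2⟩

theorem Env.insM1_nf {θ : Perm Sy} {μ : PW} {P Dd : Finset Sy} (hE : Env θ μ P Dd) {p : Sy}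
    (hp : p ∈ P) {n : ℕ} (hn : mr n ∉ μ.x) (hθ : θ (mr n) = mr n) :
    nf θ Dd (insM p n μ).x = nf θ Dd μ.x := by
  have hE' := Env.insM1 hE hp hn hθ
  have hG := Env.good hE' (OvP.self hE')
  have hpx : p ∈ μ.x := (hE.sub p hp).1
  have h := delM_nf (n := n) hG.th hθ (fun h => hn (hE.dsub _ h)) hG.inv
    ⟨p, (mem_insM hpx).2 (Or.inl hpx), fun e => hn (e ▸ hpx)⟩
  rw [delM_insM p n hn] at h
  exact h.symm

theorem Env.muL {θ : Perm Sy} {μ : PW} {P Dd : Finset Sy} (hE : Env θ μ P Dd) {p : Sy}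
    (hp : p ∈ P) {l : List ℕ} (hl : l.Nodup) (hf : ∀ n ∈ l, mr n ∉ μ.x)
    (hθ : ∀ n ∈ l, θ (mr n) = mr n) :
    Env θ (muL p μ l) (P ∪ (l.map Sy.mr).toFinset) Dd ∧
      nf θ Dd (TH547.Arc.muL p μ l).x = nf θ Dd μ.x ∧ (TH547.Arc.muL p μ l).ord = μ.ord := by
  induction l generalizing μ P with
  | nil =>
    refine ⟨?_, rfl, rfl⟩
    have h : P ∪ (([] : List ℕ).map Sy.mr).toFinset = P := by simp
    rw [h]
    exact hE
  | cons n l ih =>
    have hn : mr n ∉ μ.x := hf n (by simp)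
    have hθn := hθ n (by simp)
    have hpx : p ∈ μ.x := (hE.sub p hp).1
    have hE' := Env.insM1 hE hp hn hθn
    have h4 : ∀ k ∈ l, mr k ∉ (insM p n μ).x := by
      intro k hk h'
      rw [mem_insM hpx] at h'
      rcases h' with h' | h'
      · exact hf k (List.mem_cons_of_mem _ hk) h'
      · have : k = n := by simpa using h'
        subst this
        exact (List.nodup_cons.1 hl).1 hk
    obtain ⟨k1, k2, k3⟩ := ih hE' (Finset.mem_insert_of_mem hp) (List.nodup_cons.1 hl).2 h4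
      (fun k hk => hθ k (List.mem_cons_of_mem _ hk))
    refine ⟨?_, ?_, ?_⟩
    · have h : P ∪ ((n :: l).map Sy.mr).toFinset =
          insert (mr n) P ∪ (l.map Sy.mr).toFinset := by
        ext s
        simp only [Finset.mem_union, List.map_cons, List.toFinset_cons, Finset.mem_insert]
        tauto
      rw [h]
      exact k1
    · show nf θ Dd (TH547.Arc.muL p (insM p n μ) l).x = _
      rw [k2, Env.insM1_nf hE hp hn hθn]
    · show (TH547.Arc.muL p (insM p n μ) l).ord = _
      rw [k3, ord_insM]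

theorem mrs_eq (J : Finset ℕ) :
    ((J.sort (· ≥ ·)).map Sy.mr).toFinset = mrs J := by
  ext s
  unfold mrs
  simp only [List.mem_toFinset, List.mem_map, Finset.mem_sort, Finset.mem_image]

theorem mem_mrs {J : Finset ℕ} {s : Sy} : s ∈ mrs J ↔ ∃ j ∈ J, mr j = s := by
  unfold mrs
  rw [Finset.mem_image]

/-- `find?` with a known element of the frozen word -/
theorem find_block (ν : List Sy) {A B : List Sy} {p : Sy} (hp : p ∈ ν) :
    ∃ q ∈ A ++ [p], q ∈ ν ∧ (A ++ p :: B).find? (fun t => decide (t ∈ ν)) = some q := by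
  induction A with
  | nil =>
    refine ⟨p, by simp, hp, ?_⟩
    rw [List.nil_append, List.find?_cons_of_pos (by simpa using hp)]
  | cons u A ih =>
    by_cases hu : u ∈ ν
    · refine ⟨u, by simp, hu, ?_⟩
      rw [List.cons_append, List.find?_cons_of_pos (by simpa using hu)]
    · obtain ⟨q, h1, h2, h3⟩ := ih
      refine ⟨q, by rw [List.cons_append]; exact List.mem_cons_of_mem _ h1, h2, ?_⟩
      rw [List.cons_append, List.find?_cons_of_neg (by simpa using hu), h3]

/-- owner of a marker of the block -/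
theorem own_block (ν : List Sy) {l1 M l2 : List Sy} {p s : Sy} (hp : p ∈ ν)
    (hnd : (l1 ++ (M ++ p :: l2)).Nodup) (hs : s ∈ M) :
    ∃ q ∈ M ++ [p], q ∈ ν ∧ own ν (l1 ++ (M ++ p :: l2)) s = some q := by
  obtain ⟨A, B, rfl⟩ := List.append_of_mem hs
  have h1 : l1 ++ ((A ++ s :: B) ++ p :: l2) = (l1 ++ A) ++ s :: (B ++ p :: l2) := by simp
  rw [h1] at hnd ⊢
  have h2 : s ∉ l1 ++ A := fun h' => by
    have := List.disjoint_of_nodup_append hnd h'
    simp at this
  rw [own_mid ν _ h2]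
  obtain ⟨q, h3, h4, h5⟩ := find_block ν (A := s :: B) (B := l2) hp
  refine ⟨q, ?_, h4, h5⟩
  simp only [List.mem_append, List.mem_cons] at h3 ⊢
  tauto

theorem nodup_append_cons_inj {A A' B B' : List Sy} {p : Sy} (hnd : (A ++ p :: B).Nodup)
    (h : A ++ p :: B = A' ++ p :: B') : A = A' ∧ B = B' := by
  induction A generalizing A' with
  | nil =>
    rcases A' with _ | ⟨u, A'⟩
    · simp only [List.nil_append, List.cons.injEq, true_and] at h
      exact ⟨rfl, h⟩
    · exfalso
      rw [List.nil_append] at hnd h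
      rw [List.cons_append, List.cons.injEq] at h
      have h1 := (List.nodup_cons.1 hnd).1
      rw [h.2] at h1
      exact h1 (by simp)
  | cons v A ih =>
    rcases A' with _ | ⟨u, A'⟩
    · exfalso
      rw [List.nil_append, List.cons_append, List.cons.injEq] at h
      rw [List.cons_append] at hnd
      have h1 := (List.nodup_cons.1 hnd).1
      rw [h.1] at h1
      exact h1 (by simp)
    · rw [List.cons_append, List.cons_append, List.cons.injEq] at h
      obtain ⟨rfl, h⟩ := h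
      rw [List.cons_append] at hnd
      obtain ⟨rfl, rfl⟩ := ih (List.nodup_cons.1 hnd).2 h
      exact ⟨rfl, rfl⟩

theorem sort_erase (J : Finset ℕ) (j : ℕ) :
    (J.erase j).sort (· ≥ ·) = (J.sort (· ≥ ·)).filter (fun k => decide (k ≠ j)) := by
  refine List.Perm.eq_of_pairwise' (r := (· ≥ ·)) (Finset.pairwise_sort _ _)
    ((Finset.pairwise_sort _ _).filter _) ?_
  refine (List.perm_ext_iff_of_nodup (Finset.sort_nodup _ _) ((Finset.sort_nodup _ _).filter _)).2 ?_
  intro a
  rw [Finset.mem_sort, List.mem_filter, Finset.mem_sort, decide_eq_true_eq, Finset.mem_erase]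
  tauto

section
variable {θ : Perm Sy} {μ : PW} {p : Sy} {Dd : Finset Sy} {N0 : ℕ}
  (hE : Env θ μ {p} Dd) (hθ : ∀ n, mr n ∉ μ.x → θ (mr n) = mr n) (hN : ∀ n, N0 ≤ n → mr n ∉ μ.x)
include hE hθ hN

theorem Env.muJ_all {J : Finset ℕ} (hJ : ∀ j ∈ J, N0 ≤ j) :
    Env θ (muJ p μ J) (insert p (mrs J)) Dd ∧
      nf θ Dd (muJ p μ J).x = nf θ Dd μ.x ∧ (muJ p μ J).ord = μ.ord := by
  have h := Env.muL hE (Finset.mem_singleton_self p) (l := J.sort (· ≥ ·)) (J.sort_nodup _)
    (fun n hn => hN n (hJ n ((Finset.mem_sort _).1 hn)))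
    (fun n hn => hθ n (hN n (hJ n ((Finset.mem_sort _).1 hn))))
  rw [mrs_eq, ← Finset.insert_eq] at h
  exact h

theorem Env.muJ {J : Finset ℕ} (hJ : ∀ j ∈ J, N0 ≤ j) :
    Env θ (muJ p μ J) (insert p (mrs J)) Dd := (Env.muJ_all hE hθ hN hJ).1

theorem Env.muJ_ord (J : Finset ℕ) (hJ : ∀ j ∈ J, N0 ≤ j) : (TH547.Arc.muJ p μ J).ord = μ.ord :=
  (Env.muJ_all hE hθ hN hJ).2.2

theorem Env.muJ_nf {J : Finset ℕ} (hJ : ∀ j ∈ J, N0 ≤ j) :
    nf θ Dd (TH547.Arc.muJ p μ J).x = nf θ Dd μ.x := (Env.muJ_all hE hθ hN hJ).2.1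

omit hθ in
/-- the word `muJ` -/
theorem Env.muJ_x {J : Finset ℕ} (hJ : ∀ j ∈ J, N0 ≤ j) : ∃ l1 l2 : List Sy,
    μ.x = l1 ++ p :: l2 ∧
    (TH547.Arc.muJ p μ J).x = l1 ++ ((J.sort (· ≥ ·)).map Sy.mr ++ p :: l2) := by
  obtain ⟨l1, l2, h⟩ := List.append_of_mem (hE.sub p (Finset.mem_singleton_self p)).1
  exact ⟨l1, l2, h, muL_x (J.sort_nodup _)
    (fun n hn => hN n (hJ n ((Finset.mem_sort _).1 hn))) h⟩

omit hθ in
theorem Env.mem_muJ {J : Finset ℕ} (hJ : ∀ j ∈ J, N0 ≤ j) {s : Sy} :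
    s ∈ (TH547.Arc.muJ p μ J).x ↔ s ∈ μ.x ∨ s ∈ mrs J := by
  obtain ⟨l1, l2, h1, h2⟩ := Env.muJ_x hE hN hJ
  rw [h2, h1, mem_mrs]
  simp only [List.mem_append, List.mem_cons, List.mem_map, Finset.mem_sort]
  generalize (∃ a ∈ J, mr a = s) = Q
  tauto

omit hE hθ in
theorem Env.not_mem_mrs {J : Finset ℕ} (hJ : ∀ j ∈ J, N0 ≤ j) {s : Sy} (hs : s ∈ mrs J) :
    s ∉ μ.x := by
  obtain ⟨j, hj, rfl⟩ := mem_mrs.1 hs
  exact hN j (hJ j hj)

omit hθ in
theorem Env.muJ_filter {J : Finset ℕ} (hJ : ∀ j ∈ J, N0 ≤ j) :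
    (TH547.Arc.muJ p μ J).x.filter (fun t => decide (t ∈ μ.x)) = μ.x := by
  obtain ⟨l1, l2, h1, h2⟩ := Env.muJ_x hE hN hJ
  have hself : ∀ l : List Sy, (∀ s ∈ l, s ∈ μ.x) → l.filter (fun t => decide (t ∈ μ.x)) = l := by
    intro l hl
    rw [List.filter_eq_self]
    intro a ha
    simpa using hl a ha
  have hnil : ((J.sort (· ≥ ·)).map Sy.mr).filter (fun t => decide (t ∈ μ.x)) = [] := by
    rw [List.filter_eq_nil_iff]
    intro a ha
    obtain ⟨j, hj, rfl⟩ := List.mem_map.1 ha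
    have := hN j (hJ j ((Finset.mem_sort _).1 hj))
    simpa using this
  rw [h2, List.filter_append, List.filter_append, hnil, List.nil_append, hself l1, hself (p :: l2),
    h1]
  · intro s hs; rw [h1]; exact List.mem_append_right _ hs
  · intro s hs; rw [h1]; exact List.mem_append_left _ hs

omit hθ in
/-- the owner of a marker of the block, with respect to any frozen word between -/
theorem Env.own_mrs {J : Finset ℕ} (hJ : ∀ j ∈ J, N0 ≤ j) {X : PW}
    (hX : OvP (TH547.Arc.muJ p μ J) (insert p (mrs J)) X) {ν : List Sy} (hp : p ∈ ν)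
    (hν : ∀ t ∈ ν, t ∈ (TH547.Arc.muJ p μ J).x) {s : Sy} (hs : s ∈ insert p (mrs J)) :
    ∃ q ∈ insert p (mrs J), q ∈ ν ∧ own ν X.x s = some q := by
  have hpx : p ∈ X.x := mem_of_mu hX ((Env.mem_muJ hE hN hJ).2
    (Or.inl (hE.sub p (Finset.mem_singleton_self p)).1))
  rcases Finset.mem_insert.1 hs with rfl | hs'
  · exact ⟨s, hs, hp, own_self hp hpx⟩
  have hsx : s ∈ (TH547.Arc.muJ p μ J).x := (Env.mem_muJ hE hN hJ).2 (Or.inr hs')
  have h1 : own ν (X.x.filter (fun t => decide (t ∈ (TH547.Arc.muJ p μ J).x))) s = own ν X.x s :=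
    own_filter (fun t ht _ => by simpa using hν t ht) (by simpa using hsx)
  rw [hX.1] at h1
  obtain ⟨l1, l2, h2, h3⟩ := Env.muJ_x hE hN hJ
  have hnd := (TH547.Arc.muJ p μ J).nd
  rw [h3] at hnd
  have hsM : s ∈ (J.sort (· ≥ ·)).map Sy.mr := by
    rw [← List.mem_toFinset, mrs_eq]
    exact hs'
  obtain ⟨q, h4, h5, h6⟩ := own_block ν hp hnd hsM
  rw [← h3, h1] at h6
  refine ⟨q, ?_, h5, h6⟩
  rw [List.mem_append, List.mem_singleton, ← List.mem_toFinset, mrs_eq] at h4
  rw [Finset.mem_insert]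
  exact h4.symm

omit hθ in
/-- owners with respect to a smaller frozen word -/
theorem Env.own_down {J : Finset ℕ} (hJ : ∀ j ∈ J, N0 ≤ j) {X : PW}
    (hX : OvP (TH547.Arc.muJ p μ J) (insert p (mrs J)) X) {ν : List Sy} (hp : p ∈ ν)
    (hν : ∀ t ∈ ν, t ∈ (TH547.Arc.muJ p μ J).x) {s : Sy} (hs : s ∈ X.x)
    (hsμ : s ∉ (TH547.Arc.muJ p μ J).x) :
    ∃ q ∈ insert p (mrs J), q ∈ ν ∧ own ν X.x s = some q := by
  obtain ⟨q0, hq0, h1⟩ := hX.2.2 s hs hsμ
  obtain ⟨q, hq, h2, h3⟩ := Env.own_mrs hE hN hJ hX hp hν hq0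
  exact ⟨q, hq, h2, (own_trans X.nd hν h1).trans h3⟩

omit hθ hE in
theorem Env.nax_mu {t : Sy} (ht : t ∈ μ.x) : nax N0 t = true := by
  by_contra h
  rw [Bool.not_eq_true] at h
  obtain ⟨n, hn, rfl⟩ := nax_false h
  exact hN n hn ht

/-- cells over `muJ` are cells over `μ` with markers -/
theorem Env.muJ_clr {J : Finset ℕ} (hJ : ∀ j ∈ J, N0 ≤ j) {X : PW}
    (hX : OvP (TH547.Arc.muJ p μ J) (insert p (mrs J)) X) : OvP μ {p} (clrM N0 X) ∧ JJ N0 X = J ∧
      nf θ Dd (clrM N0 X).x = nf θ Dd X.x ∧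
      (∀ s ∈ (clrM N0 X).x, ∀ t ∈ (clrM N0 X).x,
        ((fp θ (clrM N0 X).x).SameCycle s t ↔ (fp θ X.x).SameCycle s t)) ∧
      (∀ j ∈ J, own μ.x X.x (mr j) = some p) := by
  have hpμ : p ∈ μ.x := (hE.sub p (Finset.mem_singleton_self p)).1
  have hsub : ∀ t ∈ μ.x, t ∈ (TH547.Arc.muJ p μ J).x := fun t ht =>
    (Env.mem_muJ hE hN hJ).2 (Or.inl ht)
  have hE' := Env.muJ hE hθ hN hJ
  have hmr : ∀ n, mr n ∈ X.x → mr n ∈ μ.x ∨ n ∈ J := by
    intro n hn
    have h1 := hX.2.1 n hn
    rw [Env.mem_muJ hE hN hJ, mem_mrs] at h1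
    rcases h1 with h1 | ⟨j, hj, h1⟩
    · exact Or.inl h1
    · have : j = n := by simpa using h1
      exact Or.inr (this ▸ hj)
  have howp : ∀ q, q ∈ insert p (mrs J) → q ∈ μ.x → q = p := by
    intro q hq hqμ
    rcases Finset.mem_insert.1 hq with rfl | hq
    · rfl
    · exact absurd hqμ (Env.not_mem_mrs hN hJ hq)
  have hnil : X.x.filter (nax N0) = X.x.filter (fun u => decide (u ∉ X.x.filter (fun u => !nax N0 u)))
      := by
    refine List.filter_congr fun u hu => ?_
    rw [Bool.eq_iff_iff, decide_eq_true_eq, List.mem_filter]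
    simp only [Bool.not_eq_true', not_and, Bool.not_eq_false]
    exact ⟨fun h _ => h, fun h => h hu⟩
  have hpX : p ∈ X.x := mem_of_mu hX (hsub p hpμ)
  have hR := rems_good (Env.good hE' hX) (X.x.filter (fun u => !nax N0 u)) (by
    intro m hm
    rw [List.mem_filter] at hm
    obtain ⟨n, hn, rfl⟩ := nax_false (by simpa using hm.2)
    exact ⟨hθ n (hN n hn), fun h => hN n hn (hE.dsub _ h)⟩) ⟨p, hpX, by
    rw [List.mem_filter, Env.nax_mu hN hpμ]
    simp⟩
  rw [← hnil] at hR
  refine ⟨⟨?_, ?_, ?_⟩, ?_, hR.2.2, hR.2.1, ?_⟩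
  · rw [clrM_x, List.filter_filter]
    have h1 : X.x.filter (fun a => decide (a ∈ μ.x) && nax N0 a) =
        (X.x.filter (fun t => decide (t ∈ (TH547.Arc.muJ p μ J).x))).filter
          (fun t => decide (t ∈ μ.x)) := by
      rw [List.filter_filter]
      refine List.filter_congr fun u _ => ?_
      by_cases hu : u ∈ μ.x
      · rw [Env.nax_mu hN hu]
        simp [hu, hsub u hu]
      · simp [hu]
    rw [h1, hX.1, Env.muJ_filter hE hN hJ]
  · intro n hn
    rw [clrM_x, List.mem_filter] at hn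
    rcases hmr n hn.1 with h | h
    · exact h
    · exfalso
      have h1 : n < N0 := of_decide_eq_true hn.2
      have h2 := hJ n h
      omega
  · intro s hs hsμ
    rw [clrM_x] at hs ⊢
    rw [List.mem_filter] at hs
    refine ⟨p, Finset.mem_singleton_self p, ?_⟩
    rw [own_filter (fun t ht _ => Env.nax_mu hN ht) hs.2]
    have hs' : s ∉ (TH547.Arc.muJ p μ J).x := by
      rw [Env.mem_muJ hE hN hJ, mem_mrs]
      rintro (h | ⟨j, hj, rfl⟩)
      · exact hsμ h
      · have h1 : j < N0 := of_decide_eq_true hs.2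
        have h2 := hJ j hj
        omega
    obtain ⟨q, hq, h1, h2⟩ := Env.own_down hE hN hJ hX hpμ hsub hs.1 hs'
    rw [h2, howp q hq h1]
  · ext n
    unfold JJ
    rw [List.mem_toFinset, List.mem_filterMap]
    constructor
    · rintro ⟨s, hs, h⟩
      rcases s with k | ⟨a, e⟩
      · by_cases hk : N0 ≤ k
        · simp only [if_pos hk, Option.some.injEq] at h
          subst h
          rcases hmr k hs with h | h
          · exact absurd h (hN k hk)
          · exact h
        · simp only [if_neg hk] at h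
          exact absurd h (by simp)
      · exact absurd h (by simp)
    · intro hn
      refine ⟨mr n, mem_of_mu hX ((Env.mem_muJ hE hN hJ).2 (Or.inr (mem_mrs.2 ⟨n, hn, rfl⟩))), ?_⟩
      simp only [if_pos (hJ n hn)]
  · intro j hj
    obtain ⟨q, hq, h1, h2⟩ := Env.own_mrs hE hN hJ hX hpμ hsub
      (Finset.mem_insert_of_mem (mem_mrs.2 ⟨j, hj, rfl⟩))
    rw [h2, howp q hq h1]

/-- deleting one of the markers -/
theorem Env.muJ_delM {J : Finset ℕ} (hJ : ∀ j ∈ J, N0 ≤ j) {X : PW}
    (hX : OvP (TH547.Arc.muJ p μ J) (insert p (mrs J)) X) {j : ℕ} (hj : j ∈ J) :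
    OvP (TH547.Arc.muJ p μ (J.erase j)) (insert p (mrs (J.erase j))) (delM j X) := by
  have hpμ : p ∈ μ.x := (hE.sub p (Finset.mem_singleton_self p)).1
  have hJ' : ∀ k ∈ J.erase j, N0 ≤ k := fun k hk => hJ k (Finset.mem_of_mem_erase hk)
  have hmrs : ∀ s, s ∈ mrs (J.erase j) ↔ s ∈ mrs J ∧ s ≠ mr j := by
    intro s
    rw [mem_mrs, mem_mrs]
    constructor
    · rintro ⟨k, hk, rfl⟩
      rw [Finset.mem_erase] at hk
      exact ⟨⟨k, hk.2, rfl⟩, fun h => hk.1 (by simpa using h)⟩
    · rintro ⟨⟨k, hk, rfl⟩, h⟩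
      exact ⟨k, Finset.mem_erase.2 ⟨fun e => h (by rw [e]), hk⟩, rfl⟩
  have hmem : ∀ s, s ∈ (TH547.Arc.muJ p μ (J.erase j)).x ↔
      s ∈ (TH547.Arc.muJ p μ J).x ∧ s ≠ mr j := by
    intro s
    rw [Env.mem_muJ hE hN hJ', Env.mem_muJ hE hN hJ, hmrs]
    constructor
    · rintro (h | h)
      · exact ⟨Or.inl h, fun e => hN j (hJ j hj) (e ▸ h)⟩
      · exact ⟨Or.inr h.1, h.2⟩
    · rintro ⟨h | h, h'⟩
      · exact Or.inl h
      · exact Or.inr ⟨h, h'⟩
  have hfil : (TH547.Arc.muJ p μ J).x.filter (fun u => decide (u ≠ mr j)) =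
      (TH547.Arc.muJ p μ (J.erase j)).x := by
    obtain ⟨l1, l2, h1, h2⟩ := Env.muJ_x hE hN hJ
    have h3 := muL_x ((J.erase j).sort_nodup (· ≥ ·))
      (fun n hn => hN n (hJ' n ((Finset.mem_sort _).1 hn))) h1
    have hj1 : mr j ∉ μ.x := hN j (hJ j hj)
    rw [h1, List.mem_append, not_or] at hj1
    have h4 : ((J.sort (· ≥ ·)).map Sy.mr).filter (fun u => decide (u ≠ mr j)) =
        ((J.erase j).sort (· ≥ ·)).map Sy.mr := by
      rw [sort_erase, List.filter_map]
      congr 1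
      refine List.filter_congr fun k _ => ?_
      rw [Function.comp_apply, decide_eq_decide, not_iff_not]
      exact ⟨fun h => by simpa using h, fun h => by rw [h]⟩
    rw [h2, List.filter_append, List.filter_append, filter_ne_self hj1.1, filter_ne_self hj1.2, h4]
    exact h3.symm
  have hsub : ∀ t ∈ (TH547.Arc.muJ p μ (J.erase j)).x, t ∈ (TH547.Arc.muJ p μ J).x := fun t ht =>
    ((hmem t).1 ht).1
  have hp' : p ∈ (TH547.Arc.muJ p μ (J.erase j)).x := (Env.mem_muJ hE hN hJ').2 (Or.inl hpμ)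
  refine ⟨?_, ?_, ?_⟩
  · rw [delM_x]
    have h1 : (X.x.filter (fun s => decide (s ≠ mr j))).filter
        (fun t => decide (t ∈ (TH547.Arc.muJ p μ (J.erase j)).x)) =
        (X.x.filter (fun t => decide (t ∈ (TH547.Arc.muJ p μ J).x))).filter
          (fun u => decide (u ≠ mr j)) := by
      rw [List.filter_filter, List.filter_filter]
      refine List.filter_congr fun u _ => ?_
      rw [Bool.eq_iff_iff]
      simp only [Bool.and_eq_true, decide_eq_true_eq, hmem]
      tauto
    rw [h1, hX.1, hfil]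
  · intro n hn
    rw [mem_delM] at hn
    rw [hmem]
    exact ⟨hX.2.1 n hn.1, hn.2⟩
  · intro s hs hsμ
    rw [mem_delM] at hs
    have hs' : s ∉ (TH547.Arc.muJ p μ J).x := fun h => hsμ ((hmem s).2 ⟨h, hs.2⟩)
    obtain ⟨q, hq, h1, h2⟩ := Env.own_down hE hN hJ hX hp' hsub hs.1 hs'
    refine ⟨q, ?_, ?_⟩
    · rw [Finset.mem_insert] at hq ⊢
      rcases hq with hq | hq
      · exact Or.inl hq
      · exact Or.inr ((hmrs q).2 ⟨hq, ((hmem q).1 h1).2⟩)
    · rw [delM_x, own_filter (fun t ht _ => by simpa using ((hmem t).1 ht).2)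
        (by simpa using hs.2)]
      exact h2

/-- inserting a new marker with a name larger than all others, left of all others -/
theorem Env.muJ_insM {J : Finset ℕ} (hJ : ∀ j ∈ J, N0 ≤ j) {X : PW}
    (hX : OvP (TH547.Arc.muJ p μ J) (insert p (mrs J)) X) {n : ℕ} (hn : N0 ≤ n)
    (hnJ : ∀ j ∈ J, j < n)
    {t : Sy} (ht : t ∈ X.x) (hto : own μ.x X.x t = some p)
    (htl : ∀ j ∈ J, t = mr j ∨ [t, mr j].Sublist X.x) :
    OvP (TH547.Arc.muJ p μ (insert n J)) (insert p (mrs (insert n J))) (insM t n X) := by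
  have hpμ : p ∈ μ.x := (hE.sub p (Finset.mem_singleton_self p)).1
  have hJ' : ∀ k ∈ insert n J, N0 ≤ k := by
    intro k hk
    rcases Finset.mem_insert.1 hk with rfl | hk
    · exact hn
    · exact hJ k hk
  have hnJ' : n ∉ J := fun h => lt_irrefl n (hnJ n h)
  have hE' := Env.muJ hE hθ hN hJ
  have hE'' := Env.muJ hE hθ hN hJ'
  have hmrs : ∀ s, s ∈ mrs (insert n J) ↔ s ∈ mrs J ∨ s = mr n := by
    intro s
    unfold mrs
    rw [Finset.image_insert, Finset.mem_insert]
    tauto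
  have hmem : ∀ s, s ∈ (TH547.Arc.muJ p μ (insert n J)).x ↔
      s ∈ (TH547.Arc.muJ p μ J).x ∨ s = mr n := by
    intro s
    rw [Env.mem_muJ hE hN hJ', Env.mem_muJ hE hN hJ, hmrs]
    tauto
  have hnμ : mr n ∉ (TH547.Arc.muJ p μ J).x := by
    rw [Env.mem_muJ hE hN hJ, mem_mrs]
    rintro (h | ⟨j, hj, h⟩)
    · exact hN n hn h
    · have : j = n := by simpa using h
      exact hnJ' (this ▸ hj)
  have hnX : mr n ∉ X.x := fun h => hnμ (hX.2.1 n h)
  obtain ⟨l1, l2, h1, h2⟩ := Env.muJ_x hE hN hJ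
  have h3 : (TH547.Arc.muJ p μ (insert n J)).x =
      l1 ++ (((insert n J).sort (· ≥ ·)).map Sy.mr ++ p :: l2) :=
    muL_x ((insert n J).sort_nodup (· ≥ ·))
      (fun k hk => hN k (hJ' k ((Finset.mem_sort _).1 hk))) h1
  rw [Finset.sort_insert (· ≥ ·) (fun b hb => le_of_lt (hnJ b hb)) hnJ', List.map_cons,
    List.cons_append] at h3
  -- the position of `t`
  obtain ⟨A, B, hA, hXx⟩ := first_occ ht
  have hXnd := X.nd
  rw [hXx] at hXnd
  have hB : t ∉ B := (List.nodup_cons.1 (List.Nodup.of_append_right hXnd)).1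
  have hμfil : X.x.filter (fun u => decide (u ∈ μ.x)) = μ.x := by
    have h4 : X.x.filter (fun u => decide (u ∈ μ.x)) =
        (X.x.filter (fun t => decide (t ∈ (TH547.Arc.muJ p μ J).x))).filter
          (fun t => decide (t ∈ μ.x)) := by
      rw [List.filter_filter]
      refine List.filter_congr fun u _ => ?_
      by_cases hu : u ∈ μ.x
      · simp [hu, (Env.mem_muJ hE hN hJ).2 (Or.inl hu)]
      · simp [hu]
    rw [h4, hX.1, Env.muJ_filter hE hN hJ]
  have hAμ : A.filter (fun u => decide (u ∈ μ.x)) = l1 := by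
    rw [hXx, own_mid μ.x B hA, ← List.head?_filter] at hto
    have h4 := hμfil
    rw [hXx, List.filter_append] at h4
    cases h5 : (t :: B).filter (fun u => decide (u ∈ μ.x)) with
    | nil => rw [h5] at hto; exact absurd hto (by simp)
    | cons v r =>
      rw [h5] at hto h4
      have hv : v = p := by simpa using hto
      subst hv
      rw [h1] at h4
      have hnd := μ.nd
      rw [h1, ← h4] at hnd
      have h6 := (nodup_append_cons_inj hnd h4).1
      rw [← h1] at h6
      exact h6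
  have hAJ : A.filter (fun u => decide (u ∈ (TH547.Arc.muJ p μ J).x)) = l1 := by
    rw [← hAμ]
    refine List.filter_congr fun u hu => ?_
    rw [Bool.eq_iff_iff, decide_eq_true_eq, decide_eq_true_eq, Env.mem_muJ hE hN hJ]
    constructor
    · rintro (h | h)
      · exact h
      · exfalso
        obtain ⟨j, hj, rfl⟩ := mem_mrs.1 h
        have h7 : mr j ∉ t :: B := List.disjoint_of_nodup_append hXnd hu
        rcases htl j hj with h8 | h8
        · exact h7 (by rw [h8]; simp)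
        · rw [hXx] at h8
          have h9 : [t, mr j].Sublist (t :: B) := by
            clear h7 hXnd hXx hAμ hu
            induction A with
            | nil => exact h8
            | cons v A ih =>
              rw [List.mem_cons, not_or] at hA
              refine ih hA.2 ?_
              rw [List.cons_append] at h8
              rcases List.sublist_cons_iff.1 h8 with h | ⟨r, hr, h⟩
              · exact h
              · simp only [List.cons.injEq] at hr
                exact absurd hr.1 hA.1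
          exact h7 (h9.subset (by simp))
    · exact Or.inl
  have hIx : (insM t n X).x = A ++ mr n :: t :: B := by
    rw [insM_x hnX, hXx, insB_split _ hA hB]
  have hmr : ∀ l : List Sy, (∀ s ∈ l, s ∈ X.x) →
      l.filter (fun u => decide (u ∈ (TH547.Arc.muJ p μ (insert n J)).x)) =
      l.filter (fun u => decide (u ∈ (TH547.Arc.muJ p μ J).x)) := by
    intro l hl
    refine List.filter_congr fun u hu => ?_
    rw [Bool.eq_iff_iff, decide_eq_true_eq, decide_eq_true_eq, hmem]
    constructor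
    · rintro (h | rfl)
      · exact h
      · exact absurd (hl _ hu) hnX
    · exact Or.inl
  have hfil : (insM t n X).x.filter
      (fun u => decide (u ∈ (TH547.Arc.muJ p μ (insert n J)).x)) =
      (TH547.Arc.muJ p μ (insert n J)).x := by
    have h4 := hX.1.trans h2
    rw [hXx, List.filter_append, hAJ] at h4
    have h5 := List.append_cancel_left h4
    rw [hIx, List.filter_append, List.filter_cons_of_pos (by simpa using (hmem _).2 (Or.inr rfl)),
      hmr A (fun s hs => by rw [hXx]; exact List.mem_append_left _ hs),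
      hmr (t :: B) (fun s hs => by rw [hXx]; exact List.mem_append_right _ hs), hAJ, h5, h3]
  have hmemI : ∀ s, s ∈ (insM t n X).x ↔ s ∈ X.x ∨ s = mr n := fun s => mem_insM ht
  refine ⟨hfil, ?_, ?_⟩
  · intro k hk
    rw [hmemI] at hk
    rw [hmem]
    rcases hk with hk | hk
    · exact Or.inl (hX.2.1 k hk)
    · exact Or.inr hk
  · intro s hs hsμ
    rw [hmemI] at hs
    rw [hmem, not_or] at hsμ
    have hsX : s ∈ X.x := hs.resolve_right hsμ.2
    obtain ⟨q, hq, h4⟩ := hX.2.2 s hsX hsμ.1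
    have h5 : own (TH547.Arc.muJ p μ J).x (insM t n X).x s = some q := by
      rw [insM_x hnX, own_insB_old X.nd hnX hsX hnμ]
      exact h4
    have hlast : ∃ (l : List Sy) (m : Sy), (insM t n X).x = l ++ [m] ∧
        m ∈ (TH547.Arc.muJ p μ (insert n J)).x := by
      obtain ⟨l, m, h6, h7⟩ := last' hE' hX
      rcases List.eq_nil_or_concat B with rfl | ⟨B', u, rfl⟩
      · refine ⟨A ++ [mr n], t, by rw [hIx]; simp, ?_⟩
        rw [hXx] at h6
        have := List.append_inj_right' h6 rfl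
        simp only [List.cons.injEq, and_true] at this
        rw [this, hmem]
        exact Or.inl h7
      · rw [List.concat_eq_append] at hXx hIx
        have h8 : A ++ t :: (B' ++ [u]) = (A ++ t :: B') ++ [u] := by simp
        rw [hXx, h8] at h6
        have := List.append_inj_right' h6 rfl
        simp only [List.cons.injEq, and_true] at this
        refine ⟨A ++ mr n :: t :: B', u, by rw [hIx]; simp, ?_⟩
        rw [this, hmem]
        exact Or.inl h7
    obtain ⟨q', h6⟩ := own_exists ((hmemI s).2 hs) hlast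
    refine ⟨q', ?_, h6⟩
    rw [Finset.mem_insert, hmrs]
    have h7 := (hmem q').1 (own_spec h6).1
    rcases h7 with h7 | h7
    · have h8 := own_trans (μ := (TH547.Arc.muJ p μ J).x) (insM t n X).nd
        (fun u hu => (hmem u).2 (Or.inl hu)) h6
      rw [h5, own_self h7 (own_spec h6).2.1] at h8
      have h9 : q = q' := Option.some.inj h8
      subst h9
      rcases Finset.mem_insert.1 hq with h | h
      · exact Or.inl h
      · exact Or.inr (Or.inl h)
    · exact Or.inr (Or.inr h7)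

/-- the case of one marker before `p`, conversely -/
theorem Env.muJ_insM_p {X : PW} (hX : OvP μ {p} X) {n : ℕ} (hn : N0 ≤ n) :
    OvP (TH547.Arc.muJ p μ {n}) (insert p (mrs {n})) (insM p n X) := by
  have hpμ : p ∈ μ.x := (hE.sub p (Finset.mem_singleton_self p)).1
  have hpX : p ∈ X.x := mem_of_mu hX hpμ
  have h0 : TH547.Arc.muJ p μ ∅ = μ := by
    unfold TH547.Arc.muJ
    rw [Finset.sort_empty]
    rfl
  have h1 : insert p (mrs ∅) = ({p} : Finset Sy) := by
    unfold mrs
    rw [Finset.image_empty]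
    rfl
  have hX' : OvP (TH547.Arc.muJ p μ ∅) (insert p (mrs ∅)) X := by
    rw [h0, h1]
    exact hX
  have h := Env.muJ_insM hE hθ hN (J := ∅) (by simp) hX' hn (by simp) hpX (own_self hpμ hpX)
    (by simp)
  have h2 : (insert n ∅ : Finset ℕ) = {n} := rfl
  rw [h2] at h
  exact h
end

end Pool.Agent.TH628.J905
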