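import Mathlib
import Pool.Agent.TH600.YT.Basic
import Pool.Agent.TH600.YT.Canon

set_option autoImplicit false

open MeasureTheory Real Set
open scoped ContDiff

namespace Pool.Agent.TH628.YT837

open Pool.Agent.TH600.YT

theorem per {u : ℝ × ℝ × ℝ → ℝ} (hu : Adm (2 * π) u) {a b : ℝ}
    (h : (a : Real.Angle) = (b : Real.Angle)) (x y : ℝ) : u (x, y, a) = u (x, y, b) := by
  obtain ⟨k, hk⟩ := Real.Angle.angle_eq_iff_two_pi_dvd_sub.1 h
  have hp : Function.Periodic (fun z => u (x, y, z)) (2 * π) := fun z => hu.periodic x y z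
  have h1 := hp.int_mul k b
  have h2 : a = b + (k : ℝ) * (2 * π) := by linarith
  rw [h2]
  exact h1

/-- the complex number of a point -/
noncomputable def cz (p : ℝ × ℝ × ℝ) : ℂ := (p.1 : ℂ) + (p.2.1 : ℂ) * Complex.I

theorem contDiff_cz : ContDiff ℝ ∞ cz := by
  have h1 : ContDiff ℝ ∞ (fun p : ℝ × ℝ × ℝ => (p.1 : ℂ)) :=
    Complex.ofRealCLM.contDiff.comp contDiff_fst
  have h2 : ContDiff ℝ ∞ (fun p : ℝ × ℝ × ℝ => (p.2.1 : ℂ)) :=
    Complex.ofRealCLM.contDiff.comp (contDiff_fst.comp contDiff_snd)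
  exact h1.add (h2.mul contDiff_const)

theorem norm_cz (p : ℝ × ℝ × ℝ) : ‖cz p‖ = √(p.1 ^ 2 + p.2.1 ^ 2) := by
  rw [Complex.norm_def, Complex.normSq_apply]
  congr 1
  simp [cz]
  ring

theorem contDiffAt_arg {z : ℂ} (hz : z ∈ Complex.slitPlane) : ContDiffAt ℝ ∞ Complex.arg z := by
  have h1 : ContDiffAt ℝ ∞ Complex.log z := (Complex.contDiffAt_log hz).restrict_scalars ℝ
  have h2 : ContDiffAt ℝ ∞ (fun w => (Complex.log w).im) z :=
    Complex.imCLM.contDiff.contDiffAt.comp z h1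
  exact h2.congr_of_eventuallyEq (Filter.Eventually.of_forall fun w => (Complex.log_im w).symm)

/-- the local angle function with sign `-1` -/
theorem angle_neg {z : ℂ} (hz : z ≠ 0) :
    ((Complex.arg (-z) + π : ℝ) : Real.Angle) = (Complex.arg z : Real.Angle) := by
  rw [Real.Angle.coe_add, Complex.arg_neg_coe_angle hz, add_assoc, Real.Angle.coe_pi_add_coe_pi,
    add_zero]

/-- local smooth angle -/
theorem exists_angle (p : ℝ × ℝ × ℝ) (hp : cz p ≠ 0) :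
    ∃ θ : ℝ × ℝ × ℝ → ℝ, ContDiffAt ℝ ∞ θ p ∧
      ∀ᶠ q in nhds p, (θ q : Real.Angle) = (Complex.arg (cz q) : Real.Angle) := by
  by_cases h : cz p ∈ Complex.slitPlane
  · refine ⟨fun q => Complex.arg (cz q), ?_, Filter.Eventually.of_forall fun q => rfl⟩
    exact (contDiffAt_arg h).comp p contDiff_cz.contDiffAt
  · refine ⟨fun q => Complex.arg (-cz q) + π, ?_, ?_⟩
    · have h' : -cz p ∈ Complex.slitPlane := by
        rw [Complex.mem_slitPlane_iff] at h ⊢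
        push Not at h
        left
        rcases lt_or_eq_of_le h.1 with h1 | h1
        · simpa using h1
        · exact absurd (Complex.ext (by simpa using h1) (by simpa using h.2)) hp
      have h2 : ContDiffAt ℝ ∞ (fun q => -cz q) p := contDiff_cz.contDiffAt.neg
      exact ((contDiffAt_arg h').comp p h2).add contDiffAt_const
    · have h3 : ∀ᶠ q in nhds p, cz q ≠ 0 :=
        contDiff_cz.continuous.continuousAt.eventually_ne hp
      filter_upwards [h3] with q hq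
      exact angle_neg hq

theorem canon_push (R : ℝ) (hR : 1 < R) (u : ℝ × ℝ × ℝ → ℝ) (hu : Adm (2 * π) u) :
    ∃ U : ℝ × ℝ × ℝ → ℝ, TestFn R U ∧ ∀ p : ℝ × ℝ × ℝ, Pool.Agent.TH600.YT.sq p ≤ 1 → U (cylPt R p) = u p := by
  refine ⟨fun p => u (√(p.1 ^ 2 + p.2.1 ^ 2) - R, p.2.2, Complex.arg (cz p)), ⟨?_, ?_⟩, ?_⟩
  · intro p hp
    have hp' : (√(p.1 ^ 2 + p.2.1 ^ 2) - R) ^ 2 + p.2.2 ^ 2 ≤ 1 := hp
    have hρ : 0 < √(p.1 ^ 2 + p.2.1 ^ 2) := by nlinarith [sq_nonneg p.2.2]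
    have hne : p.1 ^ 2 + p.2.1 ^ 2 ≠ 0 := (Real.sqrt_pos.1 hρ).ne'
    have hz : cz p ≠ 0 := by
      rw [← norm_pos_iff, norm_cz]
      exact hρ
    obtain ⟨θ, hθ, hev⟩ := exists_angle p hz
    have h1 : ContDiffAt ℝ ∞ (fun q : ℝ × ℝ × ℝ => √(q.1 ^ 2 + q.2.1 ^ 2) - R) p := by
      have h2 : ContDiffAt ℝ ∞ (fun q : ℝ × ℝ × ℝ => q.1 ^ 2 + q.2.1 ^ 2) p := by fun_prop
      exact (h2.sqrt hne).sub contDiffAt_const
    have h3 : ContDiffAt ℝ ∞ (fun q : ℝ × ℝ × ℝ => q.2.2) p := by fun_prop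
    have h4 : ContDiffAt ℝ ∞
        (fun q : ℝ × ℝ × ℝ => ((√(q.1 ^ 2 + q.2.1 ^ 2) - R, q.2.2, θ q) : ℝ × ℝ × ℝ)) p :=
      h1.prodMk (h3.prodMk hθ)
    have h5 : ContDiffAt ℝ ∞ (fun q : ℝ × ℝ × ℝ => u (√(q.1 ^ 2 + q.2.1 ^ 2) - R, q.2.2, θ q)) p :=
      (hu.smooth _ _ _ hp').comp p h4
    refine h5.congr_of_eventuallyEq ?_
    filter_upwards [hev] with q hq
    exact (per hu hq _ _).symm
  · intro p hp
    exact hu.pos _ _ _ hp
  · intro p hp
    have hx : p.1 ^ 2 ≤ 1 := by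
      unfold Pool.Agent.TH600.YT.sq at hp
      nlinarith [sq_nonneg p.2.1]
    have hpos : 0 < R + p.1 := by nlinarith
    have hs : √((cylPt R p).1 ^ 2 + (cylPt R p).2.1 ^ 2) = R + p.1 := by
      have : (cylPt R p).1 ^ 2 + (cylPt R p).2.1 ^ 2 = (R + p.1) ^ 2 := by
        simp only [cylPt]
        have := Real.sin_sq_add_cos_sq p.2.2
        nlinarith
      rw [this, Real.sqrt_sq hpos.le]
    have hcz : cz (cylPt R p) =
        ((R + p.1 : ℝ) : ℂ) * (Real.Angle.cos (p.2.2 : Real.Angle) +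
          Real.Angle.sin (p.2.2 : Real.Angle) * Complex.I) := by
      simp only [cz, cylPt, Real.Angle.cos_coe, Real.Angle.sin_coe]
      push_cast
      ring
    show u (√((cylPt R p).1 ^ 2 + (cylPt R p).2.1 ^ 2) - R, (cylPt R p).2.2,
      Complex.arg (cz (cylPt R p))) = u p
    have h1 : ((Complex.arg (cz (cylPt R p)) : ℝ) : Real.Angle) = (p.2.2 : Real.Angle) := by
      rw [hcz]
      exact Complex.arg_mul_cos_add_sin_mul_I_coe_angle hpos _
    rw [per hu h1, hs]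
    have : R + p.1 - R = p.1 := by ring
    rw [this]
    rfl

end Pool.Agent.TH628.YT837
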